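import Mathlib

/-!
# Roots of a determinant of polynomials with bounded rows
-/

set_option autoImplicit false

namespace Pool.Agent.R486.OR

open Polynomial Finset

/-- the coefficient of a product at the sum of the bounds of the degrees -/
theorem coeff_prod_le {K ι : Type} [CommRing K] [DecidableEq ι] (s : Finset ι) (f : ι → K[X])
    (up : ι → ℕ) (h : ∀ i ∈ s, (f i).natDegree ≤ up i) :
    (∏ i ∈ s, f i).natDegree ≤ ∑ i ∈ s, up i ∧
    (∏ i ∈ s, f i).coeff (∑ i ∈ s, up i) = ∏ i ∈ s, (f i).coeff (up i) := by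
  induction s using Finset.induction_on with
  | empty => simp
  | insert a s ha ih =>
    obtain ⟨h1, h2⟩ := ih fun i hi => h i (mem_insert_of_mem hi)
    have h3 := h a (mem_insert_self a s)
    rw [prod_insert ha, sum_insert ha, prod_insert ha]
    refine ⟨natDegree_mul_le.trans (add_le_add h3 h1), ?_⟩
    rw [coeff_mul_add_eq_of_natDegree_le h3 h1, h2]

theorem coeff_det_le {K : Type} [CommRing K] {n : ℕ} (M : Matrix (Fin n) (Fin n) K[X])
    (up : Fin n → ℕ) (h : ∀ i j, (M i j).natDegree ≤ up i) :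
    M.det.natDegree ≤ ∑ i, up i ∧
    M.det.coeff (∑ i, up i) = (Matrix.of fun i j => (M i j).coeff (up i)).det := by
  rw [← Matrix.det_transpose M, ← Matrix.det_transpose (Matrix.of fun i j => (M i j).coeff (up i)),
    Matrix.det_apply', Matrix.det_apply']
  constructor
  · refine natDegree_sum_le_of_forall_le _ _ fun σ _ => ?_
    have h1 := (coeff_prod_le univ (fun i => M.transpose (σ i) i) up fun i _ => h i _).1
    refine natDegree_mul_le.trans ?_
    have h2 : ((((Equiv.Perm.sign σ : ℤˣ) : ℤ) : K[X])).natDegree = 0 := natDegree_intCast _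
    rw [h2, zero_add]
    exact h1
  · rw [finsetSum_coeff]
    refine sum_congr rfl fun σ _ => ?_
    have h1 := (coeff_prod_le univ (fun i => M.transpose (σ i) i) up fun i _ => h i _).2
    have h2 : ((((Equiv.Perm.sign σ : ℤˣ) : ℤ) : K[X])) = C ((((Equiv.Perm.sign σ : ℤˣ) : ℤ) : K)) := by
      simp
    rw [h2, coeff_C_mul, h1]
    rfl

theorem dvd_det {K : Type} [CommRing K] {n : ℕ} (M : Matrix (Fin n) (Fin n) K[X])
    (lo : Fin n → ℕ) (h : ∀ i j, X ^ lo i ∣ M i j) : X ^ (∑ i, lo i) ∣ M.det := by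
  rw [← Matrix.det_transpose M, Matrix.det_apply']
  refine dvd_sum fun σ _ => Dvd.dvd.mul_left ?_ _
  rw [← prod_pow_eq_pow_sum]
  exact prod_dvd_prod_of_dvd _ _ fun i _ => h i _

/-- the number of the nonzero roots of a determinant -/
theorem card_det {K : Type} [Field K] [Fintype K] [DecidableEq K] {n : ℕ}
    (M : Matrix (Fin n) (Fin n) K[X]) (up lo : Fin n → ℕ)
    (h : ∀ i j, (M i j).natDegree ≤ up i) (h' : ∀ i j, X ^ lo i ∣ M i j)
    (hL : (Matrix.of fun i j => (M i j).coeff (up i)).det ≠ 0) :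
    (univ.filter fun ν : K => ν ≠ 0 ∧ (M.map (eval ν)).det = 0).card + ∑ i, lo i ≤ ∑ i, up i := by
  obtain ⟨h1, h2⟩ := coeff_det_le M up h
  obtain ⟨Q, hQ⟩ := dvd_det M lo h'
  have hM : M.det ≠ 0 := by
    intro h0
    rw [h0, coeff_zero] at h2
    exact hL h2.symm
  have hQ0 : Q ≠ 0 := by
    rintro rfl
    rw [mul_zero] at hQ
    exact hM hQ
  have hd : M.det.natDegree = ∑ i, lo i + Q.natDegree := by
    rw [hQ, natDegree_mul (pow_ne_zero _ X_ne_zero) hQ0, natDegree_X_pow]
  have hc : (univ.filter fun ν : K => ν ≠ 0 ∧ (M.map (eval ν)).det = 0).card ≤ Q.natDegree := by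
    have hsub : (univ.filter fun ν : K => ν ≠ 0 ∧ (M.map (eval ν)).det = 0) ⊆ Q.roots.toFinset := by
      intro ν hν
      rw [mem_filter] at hν
      obtain ⟨-, hν0, hν1⟩ := hν
      rw [Multiset.mem_toFinset, mem_roots hQ0]
      have h3 : (M.map (eval ν)).det = eval ν M.det := by
        have := (evalRingHom ν).map_det M
        rw [coe_evalRingHom] at this
        rw [this]
        rfl
      rw [h3, hQ, eval_mul, eval_pow, eval_X] at hν1
      exact (mul_eq_zero.1 hν1).resolve_left (pow_ne_zero _ hν0)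
    exact (card_le_card hsub).trans ((Multiset.toFinset_card_le _).trans (card_roots' Q))
  omega

end Pool.Agent.R486.OR
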