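import Mathlib
import Pool.Agent.R486.OR.Det

/-!
# The Hasse-Witt matrices of the curves `y² = x^(2g+1) + a x^(2g) + ν` modulo `p`
-/

set_option autoImplicit false

namespace Pool.Agent.R486.OR

open Polynomial Finset

/-- the Hasse-Witt (Cartier-Manin) matrix of `y² = F(x)` modulo `p` -/
noncomputable def hasseWitt (p g : ℕ) (F : (ZMod p)[X]) : Matrix (Fin g) (Fin g) (ZMod p) :=
  Matrix.of fun i j => (F ^ ((p - 1) / 2)).coeff ((i.1 + 1) * p - (j.1 + 1))

section ck
variable {K : Type} [Field K]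

/-- the coefficient of `X ^ k` in `(f + T) ^ N` as a polynomial in `T` -/
noncomputable def ck (f : K[X]) (N k : ℕ) : K[X] :=
  ∑ m ∈ range (N + 1), monomial (N - m) ((N.choose m : K) * (f ^ m).coeff k)

theorem eval_ck (f : K[X]) (N k : ℕ) (ν : K) : (ck f N k).eval ν = ((f + C ν) ^ N).coeff k := by
  unfold ck
  rw [eval_finsetSum, add_pow, finsetSum_coeff]
  refine sum_congr rfl fun m _ => ?_
  rw [eval_monomial, ← C_pow, coeff_mul_natCast, coeff_mul_C]
  ring

theorem ck_natDegree (f : K[X]) (N k lo : ℕ) (h : ∀ m < lo, (f ^ m).coeff k = 0) :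
    (ck f N k).natDegree ≤ N - lo := by
  unfold ck
  refine natDegree_sum_le_of_forall_le _ _ fun m hm => ?_
  by_cases c : m < lo
  · rw [h m c, mul_zero, monomial_zero_right, natDegree_zero]
    exact Nat.zero_le _
  · exact (natDegree_monomial_le _).trans (by omega)

theorem ck_coeff (f : K[X]) (N k m : ℕ) (hm : m ≤ N) :
    (ck f N k).coeff (N - m) = (N.choose m : K) * (f ^ m).coeff k := by
  unfold ck
  rw [finsetSum_coeff, sum_eq_single m]
  · rw [coeff_monomial, if_pos rfl]
  · intro m' hm' hne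
    rw [mem_range] at hm'
    rw [coeff_monomial, if_neg (by omega)]
  · intro h
    exact absurd (mem_range.2 (by omega)) h

theorem ck_dvd (f : K[X]) (N k hi : ℕ) (h : ∀ m, hi < m → (f ^ m).coeff k = 0) :
    X ^ (N - hi) ∣ ck f N k := by
  unfold ck
  refine dvd_sum fun m hm => ?_
  by_cases c : hi < m
  · rw [h m c, mul_zero, monomial_zero_right]
    exact dvd_zero _
  · rw [← C_mul_X_pow_eq_monomial]
    exact Dvd.dvd.mul_left (pow_dvd_pow _ (by omega)) _

theorem tri_coeff (a : K) (g m k : ℕ) : (((X : K[X]) ^ (2 * g) * (X + C a)) ^ m).coeff k =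
    if 2 * g * m ≤ k then a ^ (m - (k - 2 * g * m)) * (m.choose (k - 2 * g * m) : K) else 0 := by
  rw [mul_pow, ← pow_mul, coeff_X_pow_mul', coeff_X_add_C_pow]

end ck

section lin
variable {K : Type} [Field K]

/-- the identity between binomial coefficients -/
theorem choose_prod (m s q : ℕ) : ((m.choose s : ℕ) : K) * ∏ t ∈ range q, ((m : K) - s - t) =
    ((m.choose (s + q) : ℕ) : K) * ∏ t ∈ range q, ((s : K) + t + 1) := by
  induction q with
  | zero => simp
  | succ q ih =>
    rw [prod_range_succ, prod_range_succ, ← mul_assoc, ih]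
    have h1 : ((m.choose (s + q + 1) : ℕ) : K) * ((s : K) + q + 1) =
        ((m.choose (s + q) : ℕ) : K) * ((m : K) - s - q) := by
      rcases le_or_gt (s + q) m with h | h
      · have h2 := Nat.choose_succ_right_eq m (s + q)
        have h3 : ((m.choose (s + q + 1) * (s + q + 1) : ℕ) : K) =
            ((m.choose (s + q) * (m - (s + q)) : ℕ) : K) := by rw [h2]
        push_cast [Nat.cast_sub h] at h3
        linear_combination h3
      · rw [Nat.choose_eq_zero_of_lt h, Nat.choose_eq_zero_of_lt (by omega : m < s + q + 1)]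
        simp
    have h4 : s + (q + 1) = s + q + 1 := by ring
    rw [h4]
    linear_combination (-(∏ t ∈ range q, ((s : K) + t + 1))) * h1

/-- the polynomials `P_j` -/
noncomputable def PP (K : Type) [Field K] (g j : ℕ) : K[X] :=
  (∏ t ∈ Ico 1 j, (C (-(2 * (g : K))) * X - C (t : K))) *
    ∏ t ∈ Ico (j + 1) (g + 1), (C (2 * (g : K) + 1) * X + C (t : K))

theorem PP_eval (g j : ℕ) (y : K) : (PP K g j).eval y = (∏ t ∈ Ico 1 j, (-(2 * (g : K)) * y - t)) *
    ∏ t ∈ Ico (j + 1) (g + 1), ((2 * (g : K) + 1) * y + t) := by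
  unfold PP
  rw [eval_mul, eval_prod, eval_prod]
  simp

theorem PP_deg (g j : ℕ) (h1 : 1 ≤ j) (h2 : j ≤ g) : (PP K g j).natDegree ≤ g - 1 := by
  unfold PP
  refine natDegree_mul_le.trans ?_
  have h3 : (∏ t ∈ Ico 1 j, (C (-(2 * (g : K))) * X - C (t : K))).natDegree ≤ j - 1 := by
    refine (natDegree_prod_le _ _).trans ?_
    have : ∀ t ∈ Ico 1 j, (C (-(2 * (g : K))) * X - C (t : K)).natDegree ≤ 1 := by
      intro t _
      refine (natDegree_sub_le _ _).trans ?_
      rw [natDegree_C]
      exact max_le (natDegree_C_mul_le _ _ |>.trans natDegree_X_le) (Nat.zero_le _)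
    refine (sum_le_sum this).trans ?_
    rw [sum_const, Nat.card_Ico, smul_eq_mul, mul_one]
  have h4 : (∏ t ∈ Ico (j + 1) (g + 1), (C (2 * (g : K) + 1) * X + C (t : K))).natDegree ≤ g - j := by
    refine (natDegree_prod_le _ _).trans ?_
    have : ∀ t ∈ Ico (j + 1) (g + 1), (C (2 * (g : K) + 1) * X + C (t : K)).natDegree ≤ 1 := by
      intro t _
      refine (natDegree_add_le _ _).trans ?_
      rw [natDegree_C]
      exact max_le (natDegree_C_mul_le _ _ |>.trans natDegree_X_le) (Nat.zero_le _)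
    refine (sum_le_sum this).trans ?_
    rw [sum_const, Nat.card_Ico, smul_eq_mul, mul_one]
    omega
  omega

end lin

section main
variable {p : ℕ} [hp : Fact p.Prime]

lemma nat_ne {n : ℕ} (h0 : 0 < n) (h1 : n < p) : (n : ZMod p) ≠ 0 := by
  intro h
  rw [ZMod.natCast_eq_zero_iff] at h
  exact absurd (Nat.le_of_dvd h0 h) (not_le.2 h1)

lemma choose_ne {n k : ℕ} (hk : k ≤ n) (hn : n < p) : ((n.choose k : ℕ) : ZMod p) ≠ 0 := by
  intro h
  rw [ZMod.natCast_eq_zero_iff] at h
  have h1 : p ∣ n.factorial := by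
    have h2 := Nat.choose_mul_factorial_mul_factorial hk
    rw [← h2]
    exact Dvd.dvd.mul_right (Dvd.dvd.mul_right h _) _
  rw [hp.out.dvd_factorial] at h1
  omega

/-- no combination of the polynomials `P_j` vanishes at `g` different points -/
theorem PP_indep {g : ℕ} (hpg : 2 * g * (2 * g + 1) < p) (y : Fin g → ZMod p)
    (hy : Function.Injective y) (w : Fin g → ZMod p)
    (h : ∀ i, ∑ j : Fin g, (PP (ZMod p) g (j.1 + 1)).eval (y i) * w j = 0) : w = 0 := by
  rcases Nat.eq_zero_or_pos g with hg | hg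
  · subst hg
    exact Subsingleton.elim _ _
  obtain ⟨Q, hQ⟩ : ∃ Q, Q = ∑ j : Fin g, PP (ZMod p) g (j.1 + 1) * C (w j) := ⟨_, rfl⟩
  have hQe : ∀ z, Q.eval z = ∑ j : Fin g, (PP (ZMod p) g (j.1 + 1)).eval z * w j := by
    intro z
    rw [hQ, eval_finsetSum]
    simp
  have hQd : Q.natDegree < Fintype.card (Fin g) := by
    rw [Fintype.card_fin]
    have : Q.natDegree ≤ g - 1 := by
      rw [hQ]
      refine natDegree_sum_le_of_forall_le _ _ fun j _ => ?_
      exact (natDegree_mul_C_le _ _).trans (PP_deg g _ (by omega) (by omega))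
    omega
  have hQ0 : Q = 0 := Polynomial.eq_zero_of_natDegree_lt_card_of_eval_eq_zero Q hy
    (fun i => by rw [hQe]; exact h i) hQd
  have hd0 : ((2 * g + 1 : ℕ) : ZMod p) ≠ 0 := nat_ne (by omega) (by nlinarith)
  have hd1 : (2 * (g : ZMod p) + 1) ≠ 0 := by
    have := hd0
    push_cast at this
    exact this
  -- evaluation at the points `-s/(2g+1)`
  obtain ⟨Y, hY⟩ : ∃ Y : Fin g → ZMod p, Y = fun s => -(((s.1 + 1 : ℕ) : ZMod p)) / (2 * (g : ZMod p) + 1) :=
    ⟨_, rfl⟩
  have hYs : ∀ s, (2 * (g : ZMod p) + 1) * Y s = -((s.1 + 1 : ℕ) : ZMod p) := by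
    intro s
    rw [hY]
    field_simp
  obtain ⟨E, hE⟩ : ∃ E : Matrix (Fin g) (Fin g) (ZMod p),
      E = Matrix.of fun s j => (PP (ZMod p) g (j.1 + 1)).eval (Y s) := ⟨_, rfl⟩
  have hEt : E.BlockTriangular id := by
    intro s j hjs
    simp only [id] at hjs
    rw [hE, Matrix.of_apply, PP_eval]
    have hjs' : j.1 < s.1 := hjs
    rw [mul_eq_zero]
    right
    rw [prod_eq_zero_iff]
    refine ⟨s.1 + 1, ?_, ?_⟩
    · rw [mem_Ico]
      have := s.2
      omega
    · rw [hYs]
      ring
  have hEd : ∀ s, E s s ≠ 0 := by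
    intro s
    rw [hE, Matrix.of_apply, PP_eval]
    have hs := s.2
    refine mul_ne_zero ?_ ?_
    · rw [prod_ne_zero_iff]
      intro t ht hz
      rw [mem_Ico] at ht
      have h1 : ((2 * g * (s.1 + 1) - (2 * g + 1) * t : ℕ) : ZMod p) = 0 := by
        have hle : (2 * g + 1) * t ≤ 2 * g * (s.1 + 1) := by nlinarith
        rw [Nat.cast_sub hle]
        push_cast
        have h2 := hYs s
        push_cast at h2
        linear_combination (2 * (g : ZMod p) + 1) * hz + (2 * (g : ZMod p)) * h2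
      refine nat_ne ?_ ?_ h1
      · have : (2 * g + 1) * t < 2 * g * (s.1 + 1) := by nlinarith
        omega
      · have : 2 * g * (s.1 + 1) ≤ 2 * g * g := Nat.mul_le_mul_left _ (by omega)
        have : 2 * g * g < p := by nlinarith
        omega
    · rw [prod_ne_zero_iff]
      intro t ht hz
      rw [mem_Ico] at ht
      have h1 : ((t - (s.1 + 1) : ℕ) : ZMod p) = 0 := by
        rw [Nat.cast_sub (by omega)]
        rw [hYs] at hz
        linear_combination hz
      refine nat_ne (by omega) ?_ h1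
      have : g < p := by nlinarith
      omega
  have hdet : E.det ≠ 0 := by
    rw [Matrix.det_of_isUpperTriangular hEt]
    exact prod_ne_zero_iff.2 fun s _ => hEd s
  refine Matrix.eq_zero_of_mulVec_eq_zero hdet ?_
  funext s
  rw [Matrix.mulVec, dotProduct, hE]
  simp only [Matrix.of_apply, Pi.zero_apply]
  rw [← hQe, hQ0, eval_zero]

end main

end Pool.Agent.R486.OR
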