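import Mathlib
import Pool.Agent.R486.OR.Tri

/-!
# Most of the curves `y² = x^(2g+1) + a x^(2g) + ν` modulo `p` are ordinary
-/

set_option autoImplicit false

namespace Pool.Agent.R486.OR

open Polynomial Finset

variable {p : ℕ} [hp : Fact p.Prime]

/-- the row identity -/
theorem row {g : ℕ} (lo ρ I j : ℕ) (hdm : (2 * g + 1) * lo + ρ = I * p + g) (hρ : ρ ≤ 2 * g)
    (hj1 : 1 ≤ j) (hj : j ≤ g) :
    (if ρ ≤ g + j then ((lo.choose (g + j - ρ) : ℕ) : ZMod p) else 0) *
      ∏ t ∈ Ico 1 g, (-(2 * (g : ZMod p)) * (lo : ZMod p) - t) =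
    ((lo.choose (2 * g - ρ) : ℕ) : ZMod p) * (PP (ZMod p) g j).eval (lo : ZMod p) := by
  have hy : (2 * (g : ZMod p) + 1) * (lo : ZMod p) + ρ = g := by
    have h1 : (((2 * g + 1) * lo + ρ : ℕ) : ZMod p) = ((I * p + g : ℕ) : ZMod p) := by rw [hdm]
    push_cast at h1
    rw [ZMod.natCast_self, mul_zero, zero_add] at h1
    exact h1
  rw [PP_eval]
  by_cases c : ρ ≤ g + j
  · rw [if_pos c]
    obtain ⟨s, hs⟩ : ∃ s, s = g + j - ρ := ⟨_, rfl⟩
    have hs' : (s : ZMod p) = g + j - ρ := by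
      rw [hs, Nat.cast_sub c]
      push_cast
      ring
    have h1 := choose_prod (K := ZMod p) lo s (g - j)
    have e1 : s + (g - j) = 2 * g - ρ := by omega
    rw [e1] at h1
    have e2 : ∏ t ∈ range (g - j), ((lo : ZMod p) - s - t) =
        ∏ t ∈ Ico j g, (-(2 * (g : ZMod p)) * (lo : ZMod p) - t) := by
      rw [prod_Ico_eq_prod_range]
      refine prod_congr rfl fun t _ => ?_
      rw [hs']
      push_cast
      linear_combination hy
    have e3 : ∏ t ∈ range (g - j), ((s : ZMod p) + t + 1) =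
        ∏ t ∈ Ico (j + 1) (g + 1), ((2 * (g : ZMod p) + 1) * (lo : ZMod p) + t) := by
      rw [prod_Ico_eq_prod_range]
      have : g + 1 - (j + 1) = g - j := by omega
      rw [this]
      refine prod_congr rfl fun t _ => ?_
      rw [hs']
      push_cast
      linear_combination (-1 : ZMod p) * hy
    rw [e2, e3] at h1
    rw [← hs, ← prod_Ico_consecutive _ hj1 hj]
    linear_combination (∏ t ∈ Ico 1 j, (-(2 * (g : ZMod p)) * (lo : ZMod p) - t)) * h1
  · rw [if_neg c, zero_mul]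
    have : ∏ t ∈ Ico (j + 1) (g + 1), ((2 * (g : ZMod p) + 1) * (lo : ZMod p) + t) = 0 := by
      rw [prod_eq_zero_iff]
      refine ⟨ρ - g, by rw [mem_Ico]; omega, ?_⟩
      rw [Nat.cast_sub (by omega)]
      linear_combination hy
    rw [this, mul_zero, mul_zero]

/-- the entries of the top matrix -/
theorem entry {g : ℕ} (a : ZMod p) (lo ρ I j : ℕ) (hdm : (2 * g + 1) * lo + ρ = I * p + g)
    (hρ : ρ ≤ 2 * g) (hlo : 2 * g ≤ lo) (hj : j ≤ g) (hI : j ≤ I * p) :
    (((X : (ZMod p)[X]) ^ (2 * g) * (X + C a)) ^ lo).coeff (I * p - j) * a ^ ρ =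
      (if ρ ≤ g + j then ((lo.choose (g + j - ρ) : ℕ) : ZMod p) else 0) * a ^ (g + j) := by
  rw [tri_coeff]
  have hlin : (2 * g + 1) * lo = 2 * g * lo + lo := by ring
  obtain ⟨u, hu⟩ : ∃ u, u = 2 * g * lo := ⟨_, rfl⟩
  rw [hlin, ← hu] at hdm
  rw [← hu]
  obtain ⟨w, hw⟩ : ∃ w, w = I * p := ⟨_, rfl⟩
  rw [← hw] at hdm hI ⊢
  by_cases c : ρ ≤ g + j
  · rw [if_pos c, if_pos (by omega)]
    have e1 : w - j - u = lo - (g + j - ρ) := by omega
    have e2 : lo - (lo - (g + j - ρ)) = g + j - ρ := by omega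
    rw [e1, e2, Nat.choose_symm (by omega)]
    have e3 : a ^ (g + j) = a ^ (g + j - ρ) * a ^ ρ := by
      rw [← pow_add]
      congr 1
      omega
    rw [e3]
    ring
  · rw [if_neg c, zero_mul]
    by_cases c' : u ≤ w - j
    · rw [if_pos c', Nat.choose_eq_zero_of_lt (by omega)]
      simp
    · rw [if_neg c', zero_mul]

lemma sum_Fin (g : ℕ) : (∑ i : Fin g, (i.1 + 1)) * 2 = g * (g + 1) := by
  rw [Fin.sum_univ_eq_sum_range (fun i => i + 1) g]
  induction g with
  | zero => simp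
  | succ g ih =>
    rw [sum_range_succ, add_mul, ih]
    ring

/-- **the number of the curves which are not ordinary** -/
theorem card_tri {g : ℕ} (hg : 1 ≤ g) (hpg : 2 * g * (2 * g + 1) < p) (a : ZMod p) (ha : a ≠ 0) :
    (8 * g + 4) * (univ.filter fun ν : ZMod p =>
      (hasseWitt p g (X ^ (2 * g) * (X + C a) + C ν)).det = 0).card ≤
      (g + 1) * p + 4 * g ^ 2 + 4 * g + 2 := by
  classical
  have hp2 : p % 2 = 1 := by
    rcases hp.out.eq_two_or_odd with h | h
    · exfalso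
      nlinarith
    · exact h
  obtain ⟨N, hN⟩ : ∃ N, N = (p - 1) / 2 := ⟨_, rfl⟩
  have hpN : p = 2 * N + 1 := by omega
  obtain ⟨lo, hlo⟩ : ∃ lo : Fin g → ℕ, lo = fun i => ((i.1 + 1) * p + g) / (2 * g + 1) := ⟨_, rfl⟩
  obtain ⟨ρ, hρ⟩ : ∃ ρ : Fin g → ℕ, ρ = fun i => ((i.1 + 1) * p + g) % (2 * g + 1) := ⟨_, rfl⟩
  obtain ⟨hi, hhi⟩ : ∃ hi : Fin g → ℕ, hi = fun i => ((i.1 + 1) * p - 1) / (2 * g) := ⟨_, rfl⟩
  have hdm : ∀ i, (2 * g + 1) * lo i + ρ i = (i.1 + 1) * p + g := by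
    intro i
    rw [hlo, hρ]
    exact Nat.div_add_mod _ _
  have hρ2 : ∀ i, ρ i ≤ 2 * g := by
    intro i
    rw [hρ]
    have := Nat.mod_lt ((i.1 + 1) * p + g) (by omega : 0 < 2 * g + 1)
    simp only
    omega
  have hip : ∀ i : Fin g, (i.1 + 1) * p ≤ g * p := fun i => Nat.mul_le_mul_right _ i.2
  have hip1 : ∀ i : Fin g, p ≤ (i.1 + 1) * p := fun i => Nat.le_mul_of_pos_left _ (by omega)
  have hlo_le : ∀ i, lo i ≤ N := by
    intro i
    have h1 : lo i < N + 1 := by
      rw [hlo]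
      simp only
      rw [Nat.div_lt_iff_lt_mul (by omega)]
      have := hip i
      nlinarith
    omega
  have hhi_le : ∀ i, hi i ≤ N := by
    intro i
    have h1 : hi i < N + 1 := by
      rw [hhi]
      simp only
      rw [Nat.div_lt_iff_lt_mul (by omega)]
      have := hip i
      have h3 : g * p < (N + 1) * (2 * g) := by nlinarith
      omega
    omega
  have hlo_ge : ∀ i, 2 * g ≤ lo i := by
    intro i
    rw [hlo]
    simp only
    rw [Nat.le_div_iff_mul_le (by omega)]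
    have := hip1 i
    omega
  have hlo_p : ∀ i, lo i < p := fun i => lt_of_le_of_lt (hlo_le i) (by omega)
  have hinj : Function.Injective fun i => (lo i : ZMod p) := by
    intro i j hij
    simp only at hij
    rw [ZMod.natCast_eq_natCast_iff', Nat.mod_eq_of_lt (hlo_p i), Nat.mod_eq_of_lt (hlo_p j)] at hij
    have hi1 := hdm i
    have hj1 := hdm j
    rw [hij] at hi1
    have hi2 := hρ2 i
    have hj2 := hρ2 j
    have hpg' : 2 * g + 1 < p := by nlinarith
    rcases lt_trichotomy i.1 j.1 with h | h | h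
    · exfalso
      have h3 : (i.1 + 1 + 1) * p ≤ (j.1 + 1) * p := Nat.mul_le_mul_right _ (by omega)
      rw [add_mul, one_mul] at h3
      omega
    · exact Fin.ext h
    · exfalso
      have h3 : (j.1 + 1 + 1) * p ≤ (i.1 + 1) * p := Nat.mul_le_mul_right _ (by omega)
      rw [add_mul, one_mul] at h3
      omega
  obtain ⟨f, hf⟩ : ∃ f : (ZMod p)[X], f = X ^ (2 * g) * (X + C a) := ⟨_, rfl⟩
  have hlow : ∀ (i j : Fin g) (m : ℕ), m < lo i → (f ^ m).coeff ((i.1 + 1) * p - (j.1 + 1)) = 0 := by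
    intro i j m hm
    rw [hf, tri_coeff]
    have h1 := hdm i
    have h2 := hρ2 i
    have h3 : (2 * g + 1) * (m + 1) ≤ (2 * g + 1) * lo i := Nat.mul_le_mul_left _ hm
    have h4 : (2 * g + 1) * (m + 1) = 2 * g * m + m + 2 * g + 1 := by ring
    have h5 := j.2
    split_ifs with c
    · rw [Nat.choose_eq_zero_of_lt (by omega)]
      simp
    · rfl
  have hhigh : ∀ (i j : Fin g) (m : ℕ), hi i < m → (f ^ m).coeff ((i.1 + 1) * p - (j.1 + 1)) = 0 := by
    intro i j m hm
    rw [hf, tri_coeff]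
    rw [hhi] at hm
    simp only at hm
    rw [Nat.div_lt_iff_lt_mul (by omega), mul_comm m] at hm
    rw [if_neg (by omega)]
  obtain ⟨M, hM⟩ : ∃ M : Matrix (Fin g) (Fin g) (ZMod p)[X],
      M = Matrix.of fun i j => ck f N ((i.1 + 1) * p - (j.1 + 1)) := ⟨_, rfl⟩
  have hMe : ∀ ν : ZMod p, M.map (eval ν) = hasseWitt p g (f + C ν) := by
    intro ν
    ext i j
    rw [Matrix.map_apply, hM, Matrix.of_apply, eval_ck, hasseWitt, Matrix.of_apply, hN]
  have hdeg : ∀ i j, (M i j).natDegree ≤ N - lo i := by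
    intro i j
    rw [hM, Matrix.of_apply]
    exact ck_natDegree _ _ _ _ (hlow i j)
  have hdvd : ∀ i j, X ^ (N - hi i) ∣ M i j := by
    intro i j
    rw [hM, Matrix.of_apply]
    exact ck_dvd _ _ _ _ (hhigh i j)
  have hdet : (Matrix.of fun i j => (M i j).coeff (N - lo i)).det ≠ 0 := by
    intro h0
    obtain ⟨v, hv, hv0⟩ := Matrix.exists_mulVec_eq_zero_iff.2 h0
    apply hv
    have hrow : ∀ i, ∑ j : Fin g, (PP (ZMod p) g (j.1 + 1)).eval (lo i : ZMod p) *
        (a ^ (g + (j.1 + 1)) * v j) = 0 := by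
      intro i
      have h1 := congrFun hv0 i
      rw [Matrix.mulVec, dotProduct] at h1
      simp only [Matrix.of_apply, Pi.zero_apply] at h1
      have h2 : ∀ j : Fin g, (M i j).coeff (N - lo i) * v j *
          (a ^ ρ i * ∏ t ∈ Ico 1 g, (-(2 * (g : ZMod p)) * (lo i : ZMod p) - t)) =
          ((N.choose (lo i) : ℕ) : ZMod p) * ((lo i).choose (2 * g - ρ i) : ℕ) *
            ((PP (ZMod p) g (j.1 + 1)).eval (lo i : ZMod p) * (a ^ (g + (j.1 + 1)) * v j)) := by
        intro j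
        have hj := j.2
        have h3 : (M i j).coeff (N - lo i) = ((N.choose (lo i) : ℕ) : ZMod p) *
            (f ^ lo i).coeff ((i.1 + 1) * p - (j.1 + 1)) := by
          rw [hM, Matrix.of_apply, ck_coeff _ _ _ _ (hlo_le i)]
        have h4 := entry (p := p) (g := g) a (lo i) (ρ i) (i.1 + 1) (j.1 + 1) (hdm i) (hρ2 i) (hlo_ge i)
          (by omega) (by have := hip1 i; have : g < p := by nlinarith
                         omega)
        rw [← hf] at h4
        have h5 := row (p := p) (g := g) (lo i) (ρ i) (i.1 + 1) (j.1 + 1) (hdm i) (hρ2 i) (by omega) (by omega)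
        rw [h3]
        linear_combination ((N.choose (lo i) : ℕ) : ZMod p) * v j *
          (∏ t ∈ Ico 1 g, (-(2 * (g : ZMod p)) * (lo i : ZMod p) - t)) * h4 +
          ((N.choose (lo i) : ℕ) : ZMod p) * v j * a ^ (g + (j.1 + 1)) * h5
      have h6 := congrArg (fun z => z * (a ^ ρ i *
        ∏ t ∈ Ico 1 g, (-(2 * (g : ZMod p)) * (lo i : ZMod p) - t))) h1
      simp only [zero_mul] at h6
      rw [sum_mul, sum_congr rfl fun j _ => h2 j, ← mul_sum] at h6
      refine (mul_eq_zero.1 h6).resolve_left (mul_ne_zero ?_ ?_)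
      · exact choose_ne (hlo_le i) (by omega)
      · exact choose_ne (by have := hlo_ge i; omega) (hlo_p i)
    have h7 := PP_indep hpg (fun i => (lo i : ZMod p)) hinj (fun j => a ^ (g + (j.1 + 1)) * v j) hrow
    funext j
    have h8 := congrFun h7 j
    simp only [Pi.zero_apply] at h8 ⊢
    exact (mul_eq_zero.1 h8).resolve_left (pow_ne_zero _ ha)
  have hc := card_det M (fun i => N - lo i) (fun i => N - hi i) hdeg hdvd hdet
  simp only [hMe] at hc
  -- the sums
  have s1 : ∑ i, (N - lo i) + ∑ i, lo i = g * N := by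
    rw [← sum_add_distrib, sum_congr rfl fun i _ => Nat.sub_add_cancel (hlo_le i), sum_const, card_univ,
      Fintype.card_fin, smul_eq_mul]
  have s2 : ∑ i, (N - hi i) + ∑ i, hi i = g * N := by
    rw [← sum_add_distrib, sum_congr rfl fun i _ => Nat.sub_add_cancel (hhi_le i), sum_const, card_univ,
      Fintype.card_fin, smul_eq_mul]
  obtain ⟨B, hB⟩ : ∃ B, B = (univ.filter fun ν : ZMod p => ν ≠ 0 ∧ (hasseWitt p g (f + C ν)).det = 0).card :=
    ⟨_, rfl⟩
  rw [← hB] at hc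
  have s3 : B + ∑ i, lo i ≤ ∑ i, hi i := by omega
  have s4 : ∀ i : Fin g, 2 * g * (2 * g + 1) * hi i + (2 * g + 1) ≤
      2 * g * (2 * g + 1) * lo i + ((i.1 + 1) * p + 2 * g ^ 2) := by
    intro i
    have h1 : 2 * g * hi i ≤ (i.1 + 1) * p - 1 := by
      rw [hhi]
      exact Nat.mul_div_le _ _
    have h1' : 2 * g * hi i + 1 ≤ (i.1 + 1) * p := by
      have := hip1 i
      have := hp.out.pos
      omega
    have h2 := hdm i
    have h3 := hρ2 i
    have h4 : (i.1 + 1) * p ≤ (2 * g + 1) * lo i + g := by omega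
    nlinarith
  have s5 : 2 * g * (2 * g + 1) * ∑ i, hi i + g * (2 * g + 1) ≤
      2 * g * (2 * g + 1) * ∑ i, lo i + ((∑ i : Fin g, (i.1 + 1)) * p + g * (2 * g ^ 2)) := by
    have h1 := sum_le_sum fun i (_ : i ∈ (univ : Finset (Fin g))) => s4 i
    have e1 : ∑ i : Fin g, (2 * g * (2 * g + 1) * hi i + (2 * g + 1)) =
        2 * g * (2 * g + 1) * ∑ i, hi i + g * (2 * g + 1) := by
      rw [sum_add_distrib, ← mul_sum, sum_const, card_univ, Fintype.card_fin, smul_eq_mul]
    have e2 : ∑ i : Fin g, (2 * g * (2 * g + 1) * lo i + ((i.1 + 1) * p + 2 * g ^ 2)) =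
        2 * g * (2 * g + 1) * ∑ i, lo i + ((∑ i : Fin g, (i.1 + 1)) * p + g * (2 * g ^ 2)) := by
      rw [sum_add_distrib, sum_add_distrib, ← mul_sum, ← sum_mul, sum_const, card_univ,
        Fintype.card_fin, smul_eq_mul]
    rw [e1, e2] at h1
    exact h1
  have s6 := sum_Fin g
  have s7 : (8 * g + 4) * (B + 1) ≤ (g + 1) * p + 4 * g ^ 2 + 4 * g + 2 := by
    obtain ⟨H, hH⟩ : ∃ H, H = ∑ i, hi i := ⟨_, rfl⟩
    obtain ⟨L, hL⟩ : ∃ L, L = ∑ i, lo i := ⟨_, rfl⟩
    obtain ⟨S, hS⟩ : ∃ S, S = ∑ i : Fin g, (i.1 + 1) := ⟨_, rfl⟩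
    rw [← hH, ← hL] at s3
    rw [← hH, ← hL, ← hS] at s5
    rw [← hS] at s6
    have h1 : 2 * g * (2 * g + 1) * (B + L) ≤ 2 * g * (2 * g + 1) * H := Nat.mul_le_mul_left _ s3
    have h2 : 2 * g * (2 * g + 1) * B + g * (2 * g + 1) ≤ S * p + g * (2 * g ^ 2) := by nlinarith
    have h3 : g * ((8 * g + 4) * (B + 1)) ≤ g * ((g + 1) * p + 4 * g ^ 2 + 4 * g + 2) := by
      have h4 : S * p * 2 = g * (g + 1) * p := by rw [← s6]; ring
      nlinarith
    exact Nat.le_of_mul_le_mul_left h3 (by omega)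
  refine le_trans (Nat.mul_le_mul_left _ ?_) s7
  rw [hB]
  have hsub : (univ.filter fun ν : ZMod p => (hasseWitt p g (X ^ (2 * g) * (X + C a) + C ν)).det = 0) ⊆
      insert 0 (univ.filter fun ν : ZMod p => ν ≠ 0 ∧ (hasseWitt p g (f + C ν)).det = 0) := by
    intro ν hν
    rw [mem_filter] at hν
    rw [mem_insert, mem_filter]
    rcases eq_or_ne ν 0 with h | h
    · exact Or.inl h
    · exact Or.inr ⟨mem_univ _, h, by rw [hf]; exact hν.2⟩
  exact (card_le_card hsub).trans (card_insert_le _ _)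

end Pool.Agent.R486.OR
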