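import Mathlib
import Pool.Agent.R486.OR.Main

/-!
# The curves `y² = f(x) + ν` modulo `p ≡ 1` modulo `2g+1`, and the curves with bad reduction
-/

set_option autoImplicit false

namespace Pool.Agent.R486.OR

open Polynomial Finset

variable {p : ℕ} [hp : Fact p.Prime]

/-- **the number of the curves `y² = f(x) + ν` which are not ordinary** -/
theorem card_gen {g : ℕ} (hp2 : p ≠ 2) (q : ℕ) (hq : p = (2 * g + 1) * q + 1)
    (f : (ZMod p)[X]) (hf : f.Monic) (hfd : f.natDegree = 2 * g + 1) :
    (4 * g + 2) * (univ.filter fun ν : ZMod p => (hasseWitt p g (f + C ν)).det = 0).card ≤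
      g ^ 2 * (p - 1) + (4 * g + 2) := by
  classical
  have hpo : p % 2 = 1 := hp.out.eq_two_or_odd.resolve_left hp2
  obtain ⟨N, hN⟩ : ∃ N, N = (p - 1) / 2 := ⟨_, rfl⟩
  have hpN : p = 2 * N + 1 := by omega
  have hNq : (2 * g + 1) * q = 2 * N := by omega
  have hlo_le : ∀ i : Fin g, (i.1 + 1) * q ≤ N := by
    intro i
    have h1 : (i.1 + 1) * q ≤ g * q := Nat.mul_le_mul_right _ i.2
    nlinarith
  have hdeg' : ∀ m, (f ^ m).natDegree = (2 * g + 1) * m := by
    intro m
    rw [hf.natDegree_pow, hfd, mul_comm]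
  have hk : ∀ i : Fin g, (i.1 + 1) * p = (2 * g + 1) * ((i.1 + 1) * q) + (i.1 + 1) := by
    intro i
    rw [hq]
    ring
  have hlow : ∀ (i j : Fin g) (m : ℕ), m < (i.1 + 1) * q → (f ^ m).coeff ((i.1 + 1) * p - (j.1 + 1)) = 0 := by
    intro i j m hm
    apply coeff_eq_zero_of_natDegree_lt
    rw [hdeg']
    have h1 : (2 * g + 1) * (m + 1) ≤ (2 * g + 1) * ((i.1 + 1) * q) := Nat.mul_le_mul_left _ hm
    have h2 : (2 * g + 1) * (m + 1) = (2 * g + 1) * m + (2 * g + 1) := by ring
    have h3 := hk i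
    have h4 := j.2
    omega
  obtain ⟨M, hM⟩ : ∃ M : Matrix (Fin g) (Fin g) (ZMod p)[X],
      M = Matrix.of fun i j => ck f N ((i.1 + 1) * p - (j.1 + 1)) := ⟨_, rfl⟩
  have hMe : ∀ ν : ZMod p, M.map (eval ν) = hasseWitt p g (f + C ν) := by
    intro ν
    ext i j
    rw [Matrix.map_apply, hM, Matrix.of_apply, eval_ck, hasseWitt, Matrix.of_apply, hN]
  have hdeg : ∀ i j, (M i j).natDegree ≤ N - (i.1 + 1) * q := by
    intro i j
    rw [hM, Matrix.of_apply]
    exact ck_natDegree _ _ _ _ (hlow i j)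
  have hdet : (Matrix.of fun i j : Fin g => (M i j).coeff (N - (i.1 + 1) * q)).det ≠ 0 := by
    have hent : ∀ i j : Fin g, (M i j).coeff (N - (i.1 + 1) * q) =
        ((N.choose ((i.1 + 1) * q) : ℕ) : ZMod p) * (f ^ ((i.1 + 1) * q)).coeff ((i.1 + 1) * p - (j.1 + 1)) := by
      intro i j
      rw [hM, Matrix.of_apply, ck_coeff _ _ _ _ (hlo_le i)]
    have hup : (Matrix.of fun i j : Fin g => (M i j).coeff (N - (i.1 + 1) * q)).BlockTriangular id := by
      intro i j hji
      have hji' : j.1 < i.1 := hji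
      rw [Matrix.of_apply, hent, coeff_eq_zero_of_natDegree_lt, mul_zero]
      rw [hdeg', hk i]
      omega
    rw [Matrix.det_of_isUpperTriangular hup, prod_ne_zero_iff]
    intro i _
    rw [Matrix.of_apply, hent]
    refine mul_ne_zero (choose_ne (hlo_le i) (by omega)) ?_
    have h1 : (i.1 + 1) * p - (i.1 + 1) = (f ^ ((i.1 + 1) * q)).natDegree := by
      rw [hdeg', hk i]
      omega
    rw [h1]
    have h2 : (f ^ ((i.1 + 1) * q)).Monic := hf.pow _
    rw [h2.coeff_natDegree]
    exact one_ne_zero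
  have hc := card_det M (fun i => N - (i.1 + 1) * q) (fun _ => 0) hdeg
    (fun i j => by rw [pow_zero]; exact one_dvd _) hdet
  simp only [hMe, sum_const_zero, add_zero] at hc
  have s1 : ∑ i : Fin g, (N - (i.1 + 1) * q) + (∑ i : Fin g, (i.1 + 1)) * q = g * N := by
    rw [sum_mul, ← sum_add_distrib, sum_congr rfl fun i _ => Nat.sub_add_cancel (hlo_le i), sum_const,
      card_univ, Fintype.card_fin, smul_eq_mul]
  have s6 := sum_Fin g
  obtain ⟨D, hD⟩ : ∃ D, D = ∑ i : Fin g, (N - (i.1 + 1) * q) := ⟨_, rfl⟩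
  obtain ⟨S, hS⟩ : ∃ S, S = ∑ i : Fin g, (i.1 + 1) := ⟨_, rfl⟩
  rw [← hD] at hc s1
  rw [← hS] at s1 s6
  have s2 : (4 * g + 2) * D = g ^ 2 * (p - 1) := by
    have h1 : p - 1 = (2 * g + 1) * q := by omega
    rw [h1]
    have h2 : 2 * D + g * (g + 1) * q = g * ((2 * g + 1) * q) := by
      rw [hNq, ← s6]
      nlinarith
    have h3 : 2 * D = g ^ 2 * q := by nlinarith
    calc (4 * g + 2) * D = (2 * g + 1) * (2 * D) := by ring
      _ = (2 * g + 1) * (g ^ 2 * q) := by rw [h3]
      _ = _ := by ring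
  have hsub : (univ.filter fun ν : ZMod p => (hasseWitt p g (f + C ν)).det = 0) ⊆
      insert 0 (univ.filter fun ν : ZMod p => ν ≠ 0 ∧ (hasseWitt p g (f + C ν)).det = 0) := by
    intro ν hν
    rw [mem_filter] at hν
    rw [mem_insert, mem_filter]
    rcases eq_or_ne ν 0 with h | h
    · exact Or.inl h
    · exact Or.inr ⟨mem_univ _, h, hν.2⟩
  have hle : (univ.filter fun ν : ZMod p => (hasseWitt p g (f + C ν)).det = 0).card ≤ D + 1 :=
    (card_le_card hsub).trans ((card_insert_le _ _).trans (by omega))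
  calc (4 * g + 2) * _ ≤ (4 * g + 2) * (D + 1) := Nat.mul_le_mul_left _ hle
    _ = _ := by rw [mul_add, s2, mul_one]

open Classical in
/-- **the number of the singular curves `y² = f(x) + ν`** -/
theorem card_bad (f : (ZMod p)[X]) (hf : f.Monic) (hd : ((f.natDegree : ℕ) : ZMod p) ≠ 0)
    (hd1 : 1 ≤ f.natDegree) :
    (univ.filter fun ν : ZMod p => ¬ Squarefree (f + C ν)).card ≤ f.natDegree - 1 := by
  have hder : derivative f ≠ 0 := by
    intro h
    have h1 : (derivative f).coeff (f.natDegree - 1) = 0 := by rw [h, coeff_zero]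
    rw [coeff_derivative, Nat.sub_add_cancel hd1, hf.coeff_natDegree, one_mul] at h1
    have h2 : ((f.natDegree - 1 : ℕ) : ZMod p) + 1 = (f.natDegree : ZMod p) := by
      rw [Nat.cast_sub hd1]
      ring
    rw [h2] at h1
    exact hd h1
  have key : ∀ ν : ZMod p, ¬ Squarefree (f + C ν) → ∃ x : AlgebraicClosure (ZMod p),
      aeval x (derivative f) = 0 ∧ aeval x f = - algebraMap (ZMod p) _ ν := by
    intro ν hν
    have h1 : ¬ IsCoprime (f + C ν) (derivative f) := by
      intro h
      apply hν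
      have h2 : (f + C ν).Separable := by
        unfold Separable
        rw [derivative_add, derivative_C, add_zero]
        exact h
      exact h2.squarefree
    rw [isCoprime_iff_aeval_ne_zero_of_isAlgClosed (ZMod p) (AlgebraicClosure (ZMod p))] at h1
    push Not at h1
    obtain ⟨x, hx1, hx2⟩ := h1
    refine ⟨x, hx2, ?_⟩
    rw [map_add, aeval_C] at hx1
    linear_combination hx1
  choose! x hx1 hx2 using key
  have h3 : (univ.filter fun ν : ZMod p => ¬ Squarefree (f + C ν)).card ≤
      ((derivative f).map (algebraMap (ZMod p) (AlgebraicClosure (ZMod p)))).roots.toFinset.card := by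
    apply card_le_card_of_injOn x
    · intro ν hν
      rw [mem_coe, mem_filter] at hν
      rw [mem_coe, Multiset.mem_toFinset, mem_roots', IsRoot.def, eval_map_algebraMap]
      exact ⟨(Polynomial.map_ne_zero_iff (algebraMap (ZMod p) (AlgebraicClosure (ZMod p))).injective).2 hder,
        hx1 ν hν.2⟩
    · intro ν hν ν' hν' h
      rw [mem_coe, mem_filter] at hν hν'
      have h1 := hx2 ν hν.2
      have h2 := hx2 ν' hν'.2
      rw [h] at h1
      rw [h1] at h2
      exact (algebraMap (ZMod p) (AlgebraicClosure (ZMod p))).injective (neg_injective h2)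
  refine h3.trans ((Multiset.toFinset_card_le _).trans ((card_roots' _).trans ?_))
  refine (natDegree_map_le).trans ?_
  exact natDegree_derivative_le f

end Pool.Agent.R486.OR
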