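import Mathlib
import Pool.Agent.R486.OR.Gen

/-!
# The proportion of the good ordinary members of the families modulo `p`
-/

set_option autoImplicit false

namespace Pool.Agent.R486.OR

open Polynomial Finset

/-- `p ≠ 2` is a prime of good reduction of `y² = F(x)` (`F` modulo `p` is squarefree; `F` is monic of
degree `2g+1` below) and the Hasse-Witt matrix modulo `p` is invertible: good ordinary reduction (the
primes `p ≤ g`, for which some of the indices `ip - j` are negative, are left out) -/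
def GoodOrdinary (g : ℕ) (F : ℤ[X]) (p : ℕ) : Prop :=
  p.Prime ∧ p ≠ 2 ∧ g < p ∧ Squarefree (F.map (Int.castRingHom (ZMod p))) ∧
    (hasseWitt p g (F.map (Int.castRingHom (ZMod p)))).det ≠ 0

lemma sum_zmod' {p : ℕ} [hp : Fact p.Prime] (F : ZMod p → ℝ) :
    ∑ t ∈ range p, F (((t : ℕ) : ℤ) : ZMod p) = ∑ z : ZMod p, F z := by
  have : NeZero p := ⟨hp.out.ne_zero⟩
  refine sum_nbij' (fun t => ((t : ℤ) : ZMod p)) ZMod.val ?_ ?_ ?_ ?_ ?_
  · intro t _
    exact mem_univ _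
  · intro z _
    exact mem_range.2 (ZMod.val_lt z)
  · intro t ht
    rw [mem_range] at ht
    simp only [Int.cast_natCast]
    exact ZMod.val_cast_of_lt ht
  · intro z _
    simp only [Int.cast_natCast]
    exact ZMod.natCast_zmod_val z
  · intro t _
    rfl

lemma map_add_C {p : ℕ} (f : ℤ[X]) (n : ℤ) : (f + C n).map (Int.castRingHom (ZMod p)) =
    f.map (Int.castRingHom (ZMod p)) + C ((n : ℤ) : ZMod p) := by
  rw [Polynomial.map_add, map_C]
  rfl

open Classical in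
/-- the number of the good ordinary members is at least `p` minus the two bounds -/
lemma card_good {p : ℕ} [hp : Fact p.Prime] (g : ℕ) (f : (ZMod p)[X]) (A B : ℕ)
    (hA : (univ.filter fun ν : ZMod p => (hasseWitt p g (f + C ν)).det = 0).card ≤ A)
    (hB : (univ.filter fun ν : ZMod p => ¬ Squarefree (f + C ν)).card ≤ B) :
    (p : ℝ) - A - B ≤ ∑ ν : ZMod p,
      if Squarefree (f + C ν) ∧ (hasseWitt p g (f + C ν)).det ≠ 0 then (1 : ℝ) else 0 := by
  have h1 : (univ : Finset (ZMod p)) ⊆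
      ((univ.filter fun ν : ZMod p => (hasseWitt p g (f + C ν)).det = 0) ∪
        (univ.filter fun ν : ZMod p => ¬ Squarefree (f + C ν))) ∪
      (univ.filter fun ν : ZMod p => Squarefree (f + C ν) ∧ (hasseWitt p g (f + C ν)).det ≠ 0) := by
    intro ν _
    simp only [mem_union, mem_filter, mem_univ, true_and]
    tauto
  have h2 := (card_le_card h1).trans ((card_union_le _ _).trans
    (Nat.add_le_add_right (card_union_le _ _) _))
  rw [card_univ, ZMod.card] at h2
  rw [← sum_filter, sum_const, nsmul_eq_mul, mul_one]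
  have h3 : p ≤ A + B + (univ.filter fun ν : ZMod p =>
      Squarefree (f + C ν) ∧ (hasseWitt p g (f + C ν)).det ≠ 0).card := by omega
  have h4 : (p : ℝ) ≤ A + B + ((univ.filter fun ν : ZMod p =>
      Squarefree (f + C ν) ∧ (hasseWitt p g (f + C ν)).det ≠ 0).card : ℝ) := by exact_mod_cast h3
  linarith

lemma tri_map {p : ℕ} (g : ℕ) (a n : ℤ) :
    (X ^ (2 * g + 1) + C a * X ^ (2 * g) + C n : ℤ[X]).map (Int.castRingHom (ZMod p)) =
      X ^ (2 * g) * (X + C (a : ZMod p)) + C ((n : ℤ) : ZMod p) := by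
  rw [Polynomial.map_add, Polynomial.map_add, Polynomial.map_mul, Polynomial.map_pow,
    Polynomial.map_pow, map_X, map_C, map_C]
  change X ^ (2 * g + 1) + C (a : ZMod p) * X ^ (2 * g) + C ((n : ℤ) : ZMod p) = _
  ring

open Classical in
/-- **the proportion for the trinomials** -/
theorem mean_tri {g : ℕ} (hg : 1 ≤ g) (a : ℤ) (ha : a ≠ 0) {p : ℕ} (hp : p.Prime)
    (h1 : 2 * g * (2 * g + 1) < p) (h2 : a.natAbs < p) :
    1 - ((g : ℝ) + 1) / (8 * g + 4) - 3 * g / p ≤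
      (∑ t ∈ range p, if GoodOrdinary g (X ^ (2 * g + 1) + C a * X ^ (2 * g) + C (t : ℤ)) p
        then (1 : ℝ) else 0) / p := by
  have : Fact p.Prime := ⟨hp⟩
  have hg1 : (1 : ℝ) ≤ g := by exact_mod_cast hg
  have hp0 : (0 : ℝ) < p := by exact_mod_cast hp.pos
  have ha' : ((a : ℤ) : ZMod p) ≠ 0 := by
    intro h
    rw [ZMod.intCast_zmod_eq_zero_iff_dvd] at h
    have h3 := Int.natCast_dvd.1 h
    exact absurd (Nat.le_of_dvd (Int.natAbs_pos.2 ha) h3) (not_le.2 h2)
  have hp2 : p ≠ 2 := by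
    rintro rfl
    nlinarith
  have hgp : g < p := by nlinarith
  obtain ⟨f, hf⟩ : ∃ f : (ZMod p)[X], f = X ^ (2 * g) * (X + C (a : ZMod p)) := ⟨_, rfl⟩
  have hfm : f.Monic := by
    rw [hf]
    exact (monic_X_pow _).mul (monic_X_add_C _)
  have hfd : f.natDegree = 2 * g + 1 := by
    rw [hf, (monic_X_pow _).natDegree_mul (monic_X_add_C _), natDegree_X_pow, natDegree_X_add_C]
  have hA := card_tri hg h1 (a : ZMod p) ha'
  rw [← hf] at hA
  have hB := card_bad f hfm (by rw [hfd]; exact nat_ne (by omega) (by nlinarith)) (by omega)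
  rw [hfd] at hB
  have h3 := card_good g f _ _ le_rfl hB
  obtain ⟨A, hAe⟩ : ∃ A, A = (univ.filter fun ν : ZMod p => (hasseWitt p g (f + C ν)).det = 0).card :=
    ⟨_, rfl⟩
  rw [← hAe] at hA h3
  have h4 : ∑ t ∈ range p, (if GoodOrdinary g (X ^ (2 * g + 1) + C a * X ^ (2 * g) + C (t : ℤ)) p
        then (1 : ℝ) else 0) = ∑ ν : ZMod p,
      if Squarefree (f + C ν) ∧ (hasseWitt p g (f + C ν)).det ≠ 0 then (1 : ℝ) else 0 := by
    rw [← sum_zmod' fun ν : ZMod p =>
      if Squarefree (f + C ν) ∧ (hasseWitt p g (f + C ν)).det ≠ 0 then (1 : ℝ) else 0]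
    refine sum_congr rfl fun t _ => ?_
    unfold GoodOrdinary
    rw [tri_map, ← hf]
    simp only [hp, hp2, hgp, true_and, ne_eq, not_false_eq_true]
  rw [h4, le_div_iff₀ hp0]
  refine le_trans ?_ h3
  have h5 : ((8 * g + 4 : ℕ) : ℝ) * A ≤ (((g + 1) * p + 4 * g ^ 2 + 4 * g + 2 : ℕ) : ℝ) := by
    exact_mod_cast hA
  push_cast at h5
  have h6 : (0 : ℝ) < 8 * g + 4 := by positivity
  have h7 : (A : ℝ) ≤ ((g : ℝ) + 1) / (8 * g + 4) * p + (g + 1) / 2 := by
    have h8 : ((g : ℝ) + 1) / (8 * g + 4) * p + (g + 1) / 2 =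
        (((g : ℝ) + 1) * p + (8 * g + 4) * ((g + 1) / 2)) / (8 * g + 4) := by
      field_simp
    rw [h8, le_div_iff₀ h6]
    nlinarith
  have h9 : (1 - ((g : ℝ) + 1) / (8 * g + 4) - 3 * g / p) * p =
      p - ((g : ℝ) + 1) / (8 * g + 4) * p - 3 * g := by
    field_simp
  rw [h9]
  have h10 : ((2 * g + 1 - 1 : ℕ) : ℝ) = 2 * g := by
    rw [Nat.add_sub_cancel]
    push_cast
    ring
  rw [h10]
  linarith

open Classical in
/-- **the proportion for all monic polynomials** -/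
theorem mean_gen {g : ℕ} (hg : 1 ≤ g) (f : ℤ[X]) (hfm : f.Monic) (hfd : f.natDegree = 2 * g + 1)
    {p : ℕ} (hp : p.Prime) (h1 : p % (2 * g + 1) = 1) :
    1 - (g : ℝ) ^ 2 / (4 * g + 2) - 3 * g / p ≤
      (∑ t ∈ range p, if GoodOrdinary g (f + C (t : ℤ)) p then (1 : ℝ) else 0) / p := by
  have : Fact p.Prime := ⟨hp⟩
  have hg1 : (1 : ℝ) ≤ g := by exact_mod_cast hg
  have hp0 : (0 : ℝ) < p := by exact_mod_cast hp.pos
  obtain ⟨q, hq⟩ : ∃ q, q = p / (2 * g + 1) := ⟨_, rfl⟩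
  have hpq : p = (2 * g + 1) * q + 1 := by
    have := Nat.div_add_mod p (2 * g + 1)
    rw [h1, ← hq] at this
    exact this.symm
  have hq0 : 1 ≤ q := by
    rcases Nat.eq_zero_or_pos q with h | h
    · rw [h, mul_zero, zero_add] at hpq
      exact absurd hpq hp.one_lt.ne'
    · exact h
  have hpg : 2 * g + 1 < p := by nlinarith
  have hp2 : p ≠ 2 := by omega
  have hgp : g < p := by omega
  obtain ⟨F, hF⟩ : ∃ F : (ZMod p)[X], F = f.map (Int.castRingHom (ZMod p)) := ⟨_, rfl⟩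
  have hFm : F.Monic := by rw [hF]; exact hfm.map _
  have hFd : F.natDegree = 2 * g + 1 := by rw [hF, hfm.natDegree_map, hfd]
  have hA := card_gen hp2 q hpq F hFm hFd
  have hB := card_bad F hFm (by rw [hFd]; exact nat_ne (by omega) hpg) (by omega)
  rw [hFd] at hB
  have h3 := card_good g F _ _ le_rfl hB
  obtain ⟨A, hAe⟩ : ∃ A, A = (univ.filter fun ν : ZMod p => (hasseWitt p g (F + C ν)).det = 0).card :=
    ⟨_, rfl⟩
  rw [← hAe] at hA h3
  have h4 : ∑ t ∈ range p, (if GoodOrdinary g (f + C (t : ℤ)) p then (1 : ℝ) else 0) =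
      ∑ ν : ZMod p, if Squarefree (F + C ν) ∧ (hasseWitt p g (F + C ν)).det ≠ 0 then (1 : ℝ) else 0 := by
    rw [← sum_zmod' fun ν : ZMod p =>
      if Squarefree (F + C ν) ∧ (hasseWitt p g (F + C ν)).det ≠ 0 then (1 : ℝ) else 0]
    refine sum_congr rfl fun t _ => ?_
    unfold GoodOrdinary
    rw [map_add_C, ← hF]
    simp only [hp, hp2, hgp, true_and, ne_eq, not_false_eq_true]
  rw [h4, le_div_iff₀ hp0]
  refine le_trans ?_ h3
  have h5 : ((4 * g + 2 : ℕ) : ℝ) * A ≤ ((g ^ 2 * (p - 1) + (4 * g + 2) : ℕ) : ℝ) := by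
    exact_mod_cast hA
  push_cast [Nat.cast_sub hp.one_le] at h5
  have h6 : (0 : ℝ) < 4 * g + 2 := by positivity
  have h7 : (A : ℝ) ≤ (g : ℝ) ^ 2 / (4 * g + 2) * p + 1 := by
    have h8 : (g : ℝ) ^ 2 / (4 * g + 2) * p + 1 =
        ((g : ℝ) ^ 2 * p + (4 * g + 2)) / (4 * g + 2) := by
      field_simp
    rw [h8, le_div_iff₀ h6]
    nlinarith
  have h9 : (1 - (g : ℝ) ^ 2 / (4 * g + 2) - 3 * g / p) * p =
      p - (g : ℝ) ^ 2 / (4 * g + 2) * p - 3 * g := by
    field_simp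
  rw [h9]
  have h10 : ((2 * g + 1 - 1 : ℕ) : ℝ) = 2 * g := by
    rw [Nat.add_sub_cancel]
    push_cast
    ring
  rw [h10]
  linarith

/-- the property depends on the residue of the constant term only -/
lemma good_per {g : ℕ} (f : ℤ[X]) {p : ℕ} {m n : ℤ} (h : (p : ℤ) ∣ m - n) :
    GoodOrdinary g (f + C m) p ↔ GoodOrdinary g (f + C n) p := by
  have e1 : ((m : ℤ) : ZMod p) = ((n : ℤ) : ZMod p) := by
    rw [← sub_eq_zero, ← Int.cast_sub, ZMod.intCast_zmod_eq_zero_iff_dvd]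
    exact h
  unfold GoodOrdinary
  rw [map_add_C, map_add_C, e1]

end Pool.Agent.R486.OR
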