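import Mathlib
import Pool.Agent.R486.OR.Model

/-!
# Several curves at once: few residues are bad
-/

set_option autoImplicit false

namespace Pool.Agent.R486.OR

open Polynomial Finset

/-- the polynomial `x^(2g+1) + a x^(2g) + n`; the curve `y² = x^(2g+1) + a x^(2g) + n` has genus `g` -/
noncomputable def trinomial (g : ℕ) (a n : ℤ) : ℤ[X] := X ^ (2 * g + 1) + C a * X ^ (2 * g) + C n

/-- `p` is a prime of good ordinary reduction of all the curves `y² = x^(2g+1) + a x^(2g) + n`, `(g, a)`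
in `T` -/
def AllGood (T : Finset (ℕ × ℤ)) (n : ℤ) (p : ℕ) : Prop :=
  ∀ z ∈ T, GoodOrdinary z.1 (trinomial z.1 z.2 n) p

lemma allGood_per (T : Finset (ℕ × ℤ)) {p : ℕ} {m n : ℤ} (h : (p : ℤ) ∣ m - n) :
    AllGood T m p ↔ AllGood T n p := by
  constructor
  · intro h1 z hz
    exact (good_per _ h).1 (h1 z hz)
  · intro h1 z hz
    exact (good_per _ h).2 (h1 z hz)

open Classical in
/-- few residues are bad -/
theorem few_bad (T : Finset (ℕ × ℤ)) (hT : ∀ z ∈ T, 1 ≤ z.1 ∧ z.2 ≠ 0) (p : ℕ) (hp : p.Prime)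
    (hP : ∑ z ∈ T, (2 * z.1 * (2 * z.1 + 1) + z.2.natAbs) < p) :
    (((range p).filter fun t : ℕ => ¬ AllGood T (t : ℤ) p).card : ℝ) ≤
      (∑ z ∈ T, ((z.1 : ℝ) + 1) / (8 * z.1 + 4)) * p + 3 * ∑ z ∈ T, (z.1 : ℝ) := by
  have hp0 : (0 : ℝ) < p := by exact_mod_cast hp.pos
  have h1 : ∀ z ∈ T, (((range p).filter fun t : ℕ => ¬ GoodOrdinary z.1 (trinomial z.1 z.2 (t : ℤ)) p).card : ℝ) ≤
      ((z.1 : ℝ) + 1) / (8 * z.1 + 4) * p + 3 * z.1 := by
    intro z hz
    have h2 : 2 * z.1 * (2 * z.1 + 1) + z.2.natAbs < p :=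
      lt_of_le_of_lt (single_le_sum (f := fun z : ℕ × ℤ => 2 * z.1 * (2 * z.1 + 1) + z.2.natAbs)
        (fun _ _ => Nat.zero_le _) hz) hP
    have h4 := mean_tri (hT z hz).1 z.2 (hT z hz).2 hp (by omega) (by omega)
    rw [le_div_iff₀ hp0, ← sum_filter, sum_const, nsmul_eq_mul, mul_one] at h4
    have h5 := card_filter_add_card_filter_not (s := range p)
      (fun t : ℕ => GoodOrdinary z.1 (trinomial z.1 z.2 (t : ℤ)) p)
    rw [card_range] at h5
    have h6 : ((((range p).filter fun t : ℕ => GoodOrdinary z.1 (trinomial z.1 z.2 (t : ℤ)) p).card : ℕ) : ℝ) +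
        (((range p).filter fun t : ℕ => ¬ GoodOrdinary z.1 (trinomial z.1 z.2 (t : ℤ)) p).card : ℕ) = p := by
      exact_mod_cast h5
    have h7 : (1 - ((z.1 : ℝ) + 1) / (8 * z.1 + 4) - 3 * z.1 / p) * p =
        p - ((z.1 : ℝ) + 1) / (8 * z.1 + 4) * p - 3 * z.1 := by
      field_simp
    rw [h7] at h4
    unfold trinomial at h6 ⊢
    linarith
  have h2 : ((range p).filter fun t : ℕ => ¬ AllGood T (t : ℤ) p) ⊆
      T.biUnion fun z => (range p).filter fun t : ℕ => ¬ GoodOrdinary z.1 (trinomial z.1 z.2 (t : ℤ)) p := by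
    intro t ht
    rw [mem_filter] at ht
    have h3 := ht.2
    unfold AllGood at h3
    push Not at h3
    obtain ⟨z, hz, hz'⟩ := h3
    rw [mem_biUnion]
    exact ⟨z, hz, mem_filter.2 ⟨ht.1, hz'⟩⟩
  have h3 := (card_le_card h2).trans card_biUnion_le
  have h4 : (((range p).filter fun t : ℕ => ¬ AllGood T (t : ℤ) p).card : ℝ) ≤
      ∑ z ∈ T, (((range p).filter fun t : ℕ => ¬ GoodOrdinary z.1 (trinomial z.1 z.2 (t : ℤ)) p).card : ℝ) := by
    exact_mod_cast h3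
  refine h4.trans ((sum_le_sum h1).trans (le_of_eq ?_))
  rw [sum_add_distrib, ← sum_mul, ← mul_sum]

open Classical in
/-- few classes are bad -/
theorem few_classes (T : Finset (ℕ × ℤ)) (hT : ∀ z ∈ T, 1 ≤ z.1 ∧ z.2 ≠ 0) (p : ℕ) (hp : p.Prime)
    (hP : ∑ z ∈ T, (2 * z.1 * (2 * z.1 + 1) + z.2.natAbs) < p) (A : Finset ℤ) :
    (((A.filter fun n => ¬ AllGood T n p).image fun n : ℤ => (n : ZMod p)).card : ℝ) ≤
      (∑ z ∈ T, ((z.1 : ℝ) + 1) / (8 * z.1 + 4)) * p + 3 * ∑ z ∈ T, (z.1 : ℝ) := by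
  refine le_trans ?_ (few_bad T hT p hp hP)
  have h1 : ((A.filter fun n => ¬ AllGood T n p).image fun n : ℤ => (n : ZMod p)) ⊆
      ((range p).filter fun t : ℕ => ¬ AllGood T (t : ℤ) p).image fun t : ℕ => ((t : ℤ) : ZMod p) := by
    intro c hc
    rw [mem_image] at hc
    obtain ⟨n, hn, rfl⟩ := hc
    rw [mem_filter] at hn
    have hp0 : (0 : ℤ) < p := by exact_mod_cast hp.pos
    have h2 : 0 ≤ n % p := Int.emod_nonneg _ hp0.ne'
    have h3 : n % p < p := Int.emod_lt_of_pos _ hp0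
    have h4 : (((n % p).toNat : ℕ) : ℤ) = n % p := Int.toNat_of_nonneg h2
    have h5 : (p : ℤ) ∣ n - n % p := Int.dvd_self_sub_emod
    rw [mem_image]
    refine ⟨(n % p).toNat, ?_, ?_⟩
    · rw [mem_filter, mem_range, h4]
      refine ⟨by omega, fun h => hn.2 ?_⟩
      exact (allGood_per T h5).2 h
    · rw [h4, eq_comm, ← sub_eq_zero, ← Int.cast_sub, ZMod.intCast_zmod_eq_zero_iff_dvd]
      exact h5
  exact_mod_cast (card_le_card h1).trans card_image_le

end Pool.Agent.R486.OR
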