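import Mathlib

/-!
# The larger sieve with weights
-/

set_option autoImplicit false

namespace Pool.Agent.R486.OR

open Finset

/-- the logarithms of the primes dividing `d` -/
lemma sum_log_dvd (P : Finset ℕ) (hP : ∀ p ∈ P, p.Prime) (d : ℤ) (hd : d ≠ 0) :
    ∑ p ∈ P.filter (fun p : ℕ => (p : ℤ) ∣ d), Real.log p ≤ Real.log |(d : ℝ)| := by
  have h1 : ∏ p ∈ P.filter (fun p : ℕ => (p : ℤ) ∣ d), p ∣ d.natAbs := by
    apply Finset.prod_primes_dvd
    · intro p hp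
      exact (hP p (mem_filter.1 hp).1).prime
    · intro p hp
      exact Int.natCast_dvd.1 (mem_filter.1 hp).2
  have h2 : ∏ p ∈ P.filter (fun p : ℕ => (p : ℤ) ∣ d), p ≤ d.natAbs :=
    Nat.le_of_dvd (Int.natAbs_pos.2 hd) h1
  have h3 : ∑ p ∈ P.filter (fun p : ℕ => (p : ℤ) ∣ d), Real.log p =
      Real.log ((∏ p ∈ P.filter (fun p : ℕ => (p : ℤ) ∣ d), p : ℕ) : ℝ) := by
    push_cast
    rw [Real.log_prod]
    intro p hp
    exact_mod_cast (hP p (mem_filter.1 hp).1).ne_zero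
  rw [h3]
  have h4 : (0 : ℝ) < ((∏ p ∈ P.filter (fun p : ℕ => (p : ℤ) ∣ d), p : ℕ) : ℝ) := by
    have : 0 < ∏ p ∈ P.filter (fun p : ℕ => (p : ℤ) ∣ d), p :=
      prod_pos fun p hp => (hP p (mem_filter.1 hp).1).pos
    exact_mod_cast this
  apply Real.log_le_log h4
  have h5 : ((d.natAbs : ℕ) : ℝ) = |(d : ℝ)| := by
    rw [Nat.cast_natAbs]
    push_cast
    rfl
  rw [← h5]
  exact_mod_cast h2

/-- the number of the pairs in the same class -/
lemma pairs_lower (A : Finset ℤ) (p : ℕ) (r : ℝ) (hr : 0 < r)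
    (hcl : ((A.image fun n : ℤ => (n : ZMod p)).card : ℝ) ≤ r) :
    (A.card : ℝ) ^ 2 / r ≤ (((A ×ˢ A).filter fun z : ℤ × ℤ => (p : ℤ) ∣ z.1 - z.2).card : ℝ) := by
  classical
  obtain ⟨φ, hφ⟩ : ∃ φ : ℤ → ZMod p, φ = fun n : ℤ => (n : ZMod p) := ⟨_, rfl⟩
  rw [← hφ] at hcl
  have h1 : A.card = ∑ t ∈ A.image φ, (A.filter fun n => φ n = t).card :=
    card_eq_sum_card_image φ A
  have h2 : ((A ×ˢ A).filter fun z : ℤ × ℤ => (p : ℤ) ∣ z.1 - z.2).card =
      ∑ t ∈ A.image φ, (A.filter fun n => φ n = t).card ^ 2 := by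
    rw [card_eq_sum_card_fiberwise (f := fun z : ℤ × ℤ => φ z.1) (t := A.image φ)]
    · refine sum_congr rfl fun t _ => ?_
      rw [sq, ← card_product]
      congr 1
      ext ⟨m, n⟩
      simp only [mem_filter, mem_product]
      have h3 : (p : ℤ) ∣ m - n ↔ φ m = φ n := by
        rw [hφ]
        simp only
        rw [eq_comm, ZMod.intCast_eq_intCast_iff_dvd_sub]
      rw [h3]
      constructor
      · rintro ⟨⟨⟨h4, h5⟩, h6⟩, h7⟩
        exact ⟨⟨h4, h7⟩, h5, by rw [← h6, h7]⟩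
      · rintro ⟨⟨h4, h7⟩, h5, h6⟩
        exact ⟨⟨⟨h4, h5⟩, by rw [h7, h6]⟩, h7⟩
    · intro z hz
      rw [mem_coe, mem_filter, mem_product] at hz
      exact mem_coe.2 (mem_image_of_mem φ hz.1.1)
  have h3 := sq_sum_le_card_mul_sum_sq (s := A.image φ) (f := fun t => ((A.filter fun n => φ n = t).card : ℝ))
  have h4 : ((A.card : ℕ) : ℝ) = ∑ t ∈ A.image φ, ((A.filter fun n => φ n = t).card : ℝ) := by
    rw [h1]
    push_cast
    rfl
  rw [h2, div_le_iff₀ hr]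
  push_cast
  rw [h4]
  refine h3.trans ?_
  rw [mul_comm]
  exact mul_le_mul_of_nonneg_left hcl (sum_nonneg fun t _ => by positivity)

open Classical in
/-- **the larger sieve with weights** -/
theorem larger (A : Finset ℤ) (N : ℝ) (hN : 1 ≤ N) (hA : ∀ m ∈ A, ∀ n ∈ A, |(m : ℝ) - n| ≤ N)
    (P : Finset ℕ) (hP : ∀ p ∈ P, p.Prime) (B : ℕ → ℤ → Prop) (κ : ℝ) (hκ : 0 < κ)
    (hB : ∀ p ∈ P, (((A.filter (B p)).image fun n : ℤ => (n : ZMod p)).card : ℝ) ≤ κ * p)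
    (L : ℝ) (hL0 : 0 ≤ L)
    (hL : ∀ n ∈ A, L ≤ ∑ p ∈ P.filter (fun p => B p n), Real.log p / p)
    (hΛ : 0 < ∑ p ∈ P, Real.log p / p) :
    (A.card : ℝ) * (L ^ 2 / (κ * ∑ p ∈ P, Real.log p / p) - Real.log N) ≤ ∑ p ∈ P, Real.log p := by
  obtain ⟨a, ha⟩ : ∃ a : ℕ → ℝ, a = fun p => ((A.filter (B p)).card : ℝ) := ⟨_, rfl⟩
  obtain ⟨Λ, hΛe⟩ : ∃ Λ, Λ = ∑ p ∈ P, Real.log p / p := ⟨_, rfl⟩
  obtain ⟨θ, hθ⟩ : ∃ θ, θ = ∑ p ∈ P, Real.log p := ⟨_, rfl⟩
  have hlog : ∀ p ∈ P, 0 < Real.log p := fun p hp =>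
    Real.log_pos (by exact_mod_cast (hP p hp).one_lt)
  have hp0 : ∀ p ∈ P, (0 : ℝ) < p := fun p hp => by exact_mod_cast (hP p hp).pos
  have hA0 : (0 : ℝ) ≤ A.card := Nat.cast_nonneg _
  -- the pairs
  have h1 : ∀ p ∈ P, a p ^ 2 / (κ * p) ≤ A.card +
      (((A ×ˢ A).filter fun z : ℤ × ℤ => z.1 ≠ z.2 ∧ (p : ℤ) ∣ z.1 - z.2).card : ℝ) := by
    intro p hp
    have h2 := pairs_lower (A.filter (B p)) p (κ * p) (mul_pos hκ (hp0 p hp)) (hB p hp)
    rw [ha]
    refine h2.trans ?_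
    have h3 : ((A.filter (B p) ×ˢ A.filter (B p)).filter fun z : ℤ × ℤ => (p : ℤ) ∣ z.1 - z.2) ⊆
        A.image (fun n => (n, n)) ∪
          ((A ×ˢ A).filter fun z : ℤ × ℤ => z.1 ≠ z.2 ∧ (p : ℤ) ∣ z.1 - z.2) := by
      rintro ⟨m, n⟩ hz
      rw [mem_filter, mem_product, mem_filter, mem_filter] at hz
      rw [mem_union, mem_image, mem_filter, mem_product]
      by_cases c : m = n
      · left
        exact ⟨m, hz.1.1.1, by rw [c]⟩
      · right
        exact ⟨⟨hz.1.1.1, hz.1.2.1⟩, c, hz.2⟩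
    have h4 := (card_le_card h3).trans ((card_union_le _ _).trans
      (Nat.add_le_add_right card_image_le _))
    exact_mod_cast h4
  -- the sum over the primes
  have h2 : ∑ p ∈ P, Real.log p * (((A ×ˢ A).filter fun z : ℤ × ℤ =>
      z.1 ≠ z.2 ∧ (p : ℤ) ∣ z.1 - z.2).card : ℝ) ≤ (A.card : ℝ) ^ 2 * Real.log N := by
    have h3 : ∀ p ∈ P, Real.log p * (((A ×ˢ A).filter fun z : ℤ × ℤ =>
        z.1 ≠ z.2 ∧ (p : ℤ) ∣ z.1 - z.2).card : ℝ) =
        ∑ z ∈ A ×ˢ A, if z.1 ≠ z.2 ∧ (p : ℤ) ∣ z.1 - z.2 then Real.log p else 0 := by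
      intro p _
      rw [← sum_filter, sum_const, nsmul_eq_mul, mul_comm]
    rw [sum_congr rfl h3, sum_comm]
    have h4 : ∀ z ∈ A ×ˢ A, ∑ p ∈ P, (if z.1 ≠ z.2 ∧ (p : ℤ) ∣ z.1 - z.2 then Real.log p else 0) ≤
        Real.log N := by
      intro z hz
      rw [mem_product] at hz
      by_cases c : z.1 = z.2
      · have : ∀ p ∈ P, (if z.1 ≠ z.2 ∧ (p : ℤ) ∣ z.1 - z.2 then Real.log p else 0) = 0 := by
          intro p _
          rw [if_neg]
          rintro ⟨h, -⟩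
          exact h c
        rw [sum_congr rfl this, sum_const_zero]
        exact Real.log_nonneg hN
      · have h5 := sum_log_dvd P hP (z.1 - z.2) (sub_ne_zero.2 c)
        rw [sum_filter] at h5
        have h6 : ∀ p ∈ P, (if z.1 ≠ z.2 ∧ (p : ℤ) ∣ z.1 - z.2 then Real.log p else 0) =
            if (p : ℤ) ∣ z.1 - z.2 then Real.log p else 0 := by
          intro p _
          simp only [ne_eq, c, not_false_eq_true, true_and]
        rw [sum_congr rfl h6]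
        refine h5.trans ?_
        apply Real.log_le_log
        · rw [abs_pos]
          exact_mod_cast sub_ne_zero.2 c
        · push_cast
          exact hA _ hz.1 _ hz.2
    refine (sum_le_card_nsmul _ _ _ h4).trans (le_of_eq ?_)
    rw [card_product, nsmul_eq_mul]
    push_cast
    ring
  have h3 : ∑ p ∈ P, Real.log p / p * a p ^ 2 ≤ κ * (A.card * θ + (A.card : ℝ) ^ 2 * Real.log N) := by
    have h4 : ∀ p ∈ P, Real.log p / p * a p ^ 2 ≤ κ * (Real.log p * (A.card +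
        (((A ×ˢ A).filter fun z : ℤ × ℤ => z.1 ≠ z.2 ∧ (p : ℤ) ∣ z.1 - z.2).card : ℝ))) := by
      intro p hp
      have h5 := mul_le_mul_of_nonneg_left (h1 p hp) (mul_pos hκ (hlog p hp)).le
      have h6 : κ * Real.log p * (a p ^ 2 / (κ * p)) = Real.log p / p * a p ^ 2 := by
        have := (hp0 p hp).ne'
        field_simp
      rw [h6] at h5
      linarith
    refine (sum_le_sum h4).trans ?_
    rw [← mul_sum]
    refine mul_le_mul_of_nonneg_left ?_ hκ.le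
    have h7 : ∀ p ∈ P, Real.log p * (A.card +
        (((A ×ˢ A).filter fun z : ℤ × ℤ => z.1 ≠ z.2 ∧ (p : ℤ) ∣ z.1 - z.2).card : ℝ)) =
        A.card * Real.log p + Real.log p *
        (((A ×ˢ A).filter fun z : ℤ × ℤ => z.1 ≠ z.2 ∧ (p : ℤ) ∣ z.1 - z.2).card : ℝ) := by
      intro p _
      ring
    rw [sum_congr rfl h7, sum_add_distrib, ← mul_sum, ← hθ]
    linarith
  have h4 : (∑ p ∈ P, Real.log p / p * a p) ^ 2 ≤ Λ * ∑ p ∈ P, Real.log p / p * a p ^ 2 := by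
    have h5 := Finset.sq_sum_div_le_sum_sq_div P (fun p => Real.log p / p * a p)
      (g := fun p => Real.log p / p) (fun p hp => div_pos (hlog p hp) (hp0 p hp))
    rw [← hΛe, div_le_iff₀ (by rw [hΛe]; exact hΛ)] at h5
    have h6 : ∀ p ∈ P, (Real.log p / p * a p) ^ 2 / (Real.log p / p) = Real.log p / p * a p ^ 2 := by
      intro p hp
      have := (hp0 p hp).ne'
      have := (hlog p hp).ne'
      field_simp
    rw [sum_congr rfl h6] at h5
    linarith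
  have h5 : A.card * L ≤ ∑ p ∈ P, Real.log p / p * a p := by
    have h6 : ∀ p ∈ P, Real.log p / p * a p = ∑ n ∈ A, if B p n then Real.log p / p else 0 := by
      intro p _
      rw [← sum_filter, sum_const, nsmul_eq_mul, mul_comm, ha]
    rw [sum_congr rfl h6, sum_comm]
    have h7 : ∀ n ∈ A, L ≤ ∑ p ∈ P, if B p n then Real.log p / p else 0 := by
      intro n hn
      rw [← sum_filter]
      exact hL n hn
    have h8 := card_nsmul_le_sum A _ L h7
    rwa [nsmul_eq_mul] at h8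
  rcases hA0.eq_or_lt with h0 | h0
  · rw [← h0, zero_mul]
    exact sum_nonneg fun p hp => (hlog p hp).le
  have h6 : (A.card * L) ^ 2 ≤ Λ * (κ * (A.card * θ + (A.card : ℝ) ^ 2 * Real.log N)) := by
    have h7 : 0 ≤ A.card * L := mul_nonneg hA0 hL0
    calc (A.card * L) ^ 2 ≤ (∑ p ∈ P, Real.log p / p * a p) ^ 2 := pow_le_pow_left₀ h7 h5 2
      _ ≤ _ := h4
      _ ≤ _ := mul_le_mul_of_nonneg_left h3 (by rw [hΛe]; exact hΛ.le)
  have hΛ' : 0 < Λ := by rw [hΛe]; exact hΛ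
  rw [← hΛe, ← hθ]
  have h7 : (A.card : ℝ) * (L ^ 2 / (κ * Λ) - Real.log N) * (A.card * (κ * Λ)) =
      (A.card * L) ^ 2 - κ * Λ * (A.card : ℝ) ^ 2 * Real.log N := by
    field_simp
  have h8 : 0 < A.card * (κ * Λ) := by positivity
  refine le_of_mul_le_mul_right ?_ h8
  rw [h7]
  linarith

end Pool.Agent.R486.OR
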