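import Mathlib
import Pool.Agent.R486.OR.Fam
import Pool.Agent.R486.OR.LS
import Pool.Agent.Erdos456.Mertens

/-!
# All but `N ^ τ` of the integers in an interval of length `N`
-/

set_option autoImplicit false

namespace Pool.Agent.R486.OR

open Polynomial Finset

open Classical in
/-- the sum of `log p / p` over the primes `p ≤ Q` of good ordinary reduction of all the curves
`y² = x^(2g+1) + a x^(2g) + n`, `(g, a)` in `T` -/
noncomputable def logCount (T : Finset (ℕ × ℤ)) (n : ℤ) (Q : ℕ) : ℝ :=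
  ∑ p ∈ (Icc 1 Q).filter (fun p => p.Prime ∧ AllGood T n p), Real.log p / p

/-- the elementary inequality -/
lemma quad (D κ τ C C1 ε : ℝ) (hκ : 0 < κ) (hτ : 0 < τ) (hC : 0 ≤ C) (hC1 : 0 ≤ C1) (hε : 0 < ε)
    (hε1 : ε < 1) (hD : D = (1 - ε) ^ 2) (h : κ < D * τ) : ∃ U : ℝ, 1 ≤ U ∧ ∀ u : ℝ, U ≤ u →
      0 ≤ (1 - ε) * u - C1 ∧
      κ * (u + C) * ((u + Real.log 2) / τ + Real.log 4) ≤ ((1 - ε) * u - C1) ^ 2 := by
  have hδ : 0 < D - κ / τ := by
    have : κ / τ < D := by rwa [div_lt_iff₀ hτ]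
    linarith
  obtain ⟨δ, hδe⟩ : ∃ δ, δ = D - κ / τ := ⟨_, rfl⟩
  rw [← hδe] at hδ
  obtain ⟨E, hE⟩ : ∃ E, E = Real.log 2 + τ * Real.log 4 := ⟨_, rfl⟩
  have hl2 : 0 < Real.log 2 := Real.log_pos (by norm_num)
  have hl4 : 0 < Real.log 4 := Real.log_pos (by norm_num)
  have hE0 : 0 < E := by rw [hE]; positivity
  obtain ⟨K, hK⟩ : ∃ K, K = 2 * C1 + κ / τ * (C + E + C * E) := ⟨_, rfl⟩
  have hK0 : 0 ≤ K := by rw [hK]; positivity
  have hε' : 0 < 1 - ε := by linarith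
  refine ⟨max 1 (max (K / δ) (C1 / (1 - ε))), le_max_left _ _, fun u hu => ?_⟩
  have hu1 : 1 ≤ u := (le_max_left _ _).trans hu
  have hu2 : K / δ ≤ u := ((le_max_left _ _).trans (le_max_right _ _)).trans hu
  have hu3 : C1 / (1 - ε) ≤ u := ((le_max_right _ _).trans (le_max_right _ _)).trans hu
  rw [div_le_iff₀ hδ] at hu2
  rw [div_le_iff₀ hε'] at hu3
  have hu0 : 0 < u := by linarith
  refine ⟨by linarith, ?_⟩
  have h1 : κ * (u + C) * ((u + Real.log 2) / τ + Real.log 4) =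
      κ / τ * (u ^ 2 + (C + E) * u + C * E) := by
    rw [hE]
    field_simp
    ring
  rw [h1]
  have h2 : ((1 - ε) * u - C1) ^ 2 = D * u ^ 2 - 2 * (1 - ε) * C1 * u + C1 ^ 2 := by
    rw [hD]
    ring
  rw [h2]
  have h3 : 2 * (1 - ε) * C1 * u ≤ 2 * C1 * u := by
    have : 0 ≤ C1 * u := by positivity
    nlinarith
  have h4 : κ / τ * ((C + E) * u + C * E) ≤ κ / τ * (C + E + C * E) * u := by
    have h5 : C * E ≤ C * E * u := by
      have : 0 ≤ C * E := by positivity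
      nlinarith
    have h6 : 0 < κ / τ := by positivity
    have h7 : (C + E) * u + C * E ≤ (C + E + C * E) * u := by nlinarith
    calc κ / τ * ((C + E) * u + C * E) ≤ κ / τ * ((C + E + C * E) * u) :=
          mul_le_mul_of_nonneg_left h7 h6.le
      _ = _ := by ring
  have h5 : K * u ≤ u * δ * u := mul_le_mul_of_nonneg_right hu2 hu0.le
  have h6 : u * δ * u = D * u ^ 2 - κ / τ * u ^ 2 := by
    rw [hδe]
    ring
  have h7 : K * u = 2 * C1 * u + κ / τ * (C + E + C * E) * u := by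
    rw [hK]
    ring
  have h8 : κ / τ * (u ^ 2 + (C + E) * u + C * E) =
      κ / τ * u ^ 2 + κ / τ * ((C + E) * u + C * E) := by ring
  rw [h8]
  nlinarith [sq_nonneg C1]

/-- **all but `N ^ τ` members** -/
theorem sieve (T : Finset (ℕ × ℤ)) (hT : ∀ z ∈ T, 1 ≤ z.1 ∧ z.2 ≠ 0) (ε τ : ℝ) (hε : 0 < ε)
    (hε1 : ε < 1) (hτ : ∑ z ∈ T, ((z.1 : ℝ) + 1) / (8 * z.1 + 4) < (1 - ε) ^ 2 * τ) :
    ∃ N₀ : ℕ, ∀ N : ℕ, N₀ ≤ N → ∀ M : ℤ,
      (Set.ncard {n : ℤ | M < n ∧ n ≤ M + N ∧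
        logCount T n ⌊(N : ℝ) ^ τ⌋₊ ≤ ε * Real.log ⌊(N : ℝ) ^ τ⌋₊} : ℝ) ≤ (N : ℝ) ^ τ := by
  classical
  obtain ⟨κ₀, hκ₀⟩ : ∃ κ₀, κ₀ = ∑ z ∈ T, ((z.1 : ℝ) + 1) / (8 * z.1 + 4) := ⟨_, rfl⟩
  have hκ₀0 : 0 ≤ κ₀ := by
    rw [hκ₀]
    exact sum_nonneg fun z _ => by positivity
  obtain ⟨D, hD⟩ : ∃ D, D = (1 - ε) ^ 2 := ⟨_, rfl⟩
  rw [← hκ₀, ← hD] at hτ
  have hD0 : 0 < D := by
    rw [hD]
    have : 0 < 1 - ε := by linarith
    positivity
  have hτ0 : 0 < τ := by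
    by_contra h
    push Not at h
    nlinarith
  obtain ⟨κ, hκ⟩ : ∃ κ, κ = (κ₀ + D * τ) / 2 := ⟨_, rfl⟩
  have hκ1 : κ₀ < κ := by linarith
  have hκ2 : κ < D * τ := by linarith
  have hκ0 : 0 < κ := by linarith
  obtain ⟨G, hG⟩ : ∃ G, G = 3 * ∑ z ∈ T, (z.1 : ℝ) := ⟨_, rfl⟩
  obtain ⟨P₀, hP₀⟩ : ∃ P₀, P₀ = ∑ z ∈ T, (2 * z.1 * (2 * z.1 + 1) + z.2.natAbs) := ⟨_, rfl⟩
  obtain ⟨p₂, hp₂⟩ := exists_nat_ge (G / (κ - κ₀))
  obtain ⟨p₁, hp₁⟩ : ∃ p₁, p₁ = P₀ + p₂ := ⟨_, rfl⟩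
  obtain ⟨C', hC'⟩ := Pool.Agent.Erdos456.Mert.mertens_log
  obtain ⟨C, hCC⟩ : ∃ C, C = max C' 0 := ⟨_, rfl⟩
  have hC0 : 0 ≤ C := by rw [hCC]; exact le_max_right _ _
  have hC : ∀ N : ℕ, 1 ≤ N → |∑ p ∈ (Icc 1 N).filter Nat.Prime, Real.log p / p - Real.log N| ≤ C := by
    intro N hN
    rw [hCC]
    exact (hC' N hN).trans (le_max_left _ _)
  obtain ⟨c₁, hc₁⟩ : ∃ c₁, c₁ = ∑ p ∈ (Icc 1 p₁).filter Nat.Prime, Real.log p / p := ⟨_, rfl⟩
  have hterm : ∀ p : ℕ, 0 ≤ Real.log p / p := fun p =>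
    div_nonneg (Real.log_natCast_nonneg p) (Nat.cast_nonneg p)
  have hc₁0 : 0 ≤ c₁ := by
    rw [hc₁]
    exact sum_nonneg fun p _ => hterm p
  obtain ⟨U, hU1, hU⟩ := quad D κ τ C (C + c₁) ε hκ0 hτ0 hC0 (by positivity) hε hε1 hD hκ2
  obtain ⟨U', hU'⟩ : ∃ U', U' = max U (C + c₁ + 1) := ⟨_, rfl⟩
  have hlarge : ∀ᶠ N : ℕ in Filter.atTop, Real.exp U' + 1 ≤ (N : ℝ) ^ τ :=
    ((tendsto_rpow_atTop hτ0).comp tendsto_natCast_atTop_atTop).eventually_ge_atTop _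
  obtain ⟨N₁, hN₁⟩ := Filter.eventually_atTop.1 hlarge
  refine ⟨max N₁ 1, fun N hN M => ?_⟩
  have hN1 : 1 ≤ N := (le_max_right _ _).trans hN
  have hNr : (1 : ℝ) ≤ N := by exact_mod_cast hN1
  have hbig := hN₁ N ((le_max_left _ _).trans hN)
  obtain ⟨Q, hQ⟩ : ∃ Q, Q = ⌊(N : ℝ) ^ τ⌋₊ := ⟨_, rfl⟩
  have hNτ : 0 ≤ (N : ℝ) ^ τ := by positivity
  have hQle : (Q : ℝ) ≤ (N : ℝ) ^ τ := by rw [hQ]; exact Nat.floor_le hNτ
  have hQlt : (N : ℝ) ^ τ < Q + 1 := by rw [hQ]; exact Nat.lt_floor_add_one _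
  have hQe : Real.exp U' ≤ Q := by linarith
  have hQ0 : (0 : ℝ) < Q := lt_of_lt_of_le (Real.exp_pos _) hQe
  have hQ1 : 1 ≤ Q := by exact_mod_cast hQ0
  have hQ1r : (1 : ℝ) ≤ Q := by exact_mod_cast hQ1
  obtain ⟨u, hu⟩ : ∃ u, u = Real.log Q := ⟨_, rfl⟩
  have hu1 : U' ≤ u := by
    rw [hu, ← Real.log_exp U']
    exact Real.log_le_log (Real.exp_pos _) hQe
  have huU : U ≤ u := by
    rw [hU'] at hu1
    exact (le_max_left _ _).trans hu1
  have huC : C + c₁ + 1 ≤ u := by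
    rw [hU'] at hu1
    exact (le_max_right _ _).trans hu1
  obtain ⟨hL0, hmain⟩ := hU u huU
  have hlogN : Real.log N ≤ (u + Real.log 2) / τ := by
    rw [le_div_iff₀ hτ0]
    have h1 : (N : ℝ) ^ τ ≤ Q * 2 := by linarith
    have h2 := Real.log_le_log (by positivity) h1
    rw [Real.log_rpow (by linarith), Real.log_mul hQ0.ne' (by norm_num), ← hu] at h2
    linarith
  -- the exceptional set
  rw [← hQ, ← hu]
  obtain ⟨A, hA⟩ : ∃ A : Finset ℤ, A = (Ioc M (M + N)).filter fun n => logCount T n Q ≤ ε * u := ⟨_, rfl⟩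
  have hset : {n : ℤ | M < n ∧ n ≤ M + N ∧ logCount T n Q ≤ ε * u} = (A : Set ℤ) := by
    ext n
    rw [hA]
    simp only [Set.mem_ofPred_eq, coe_filter, mem_Ioc, and_assoc]
  rw [hset, Set.ncard_coe_finset]
  obtain ⟨P, hP⟩ : ∃ P : Finset ℕ, P = (Icc 1 Q).filter fun p => p.Prime ∧ p₁ < p := ⟨_, rfl⟩
  have hPp : ∀ p ∈ P, p.Prime ∧ p₁ < p ∧ p ≤ Q := by
    intro p hp
    rw [hP, mem_filter, mem_Icc] at hp
    exact ⟨hp.2.1, hp.2.2, hp.1.2⟩
  obtain ⟨Λ, hΛ⟩ : ∃ Λ, Λ = ∑ p ∈ P, Real.log p / p := ⟨_, rfl⟩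
  have hMer := abs_le.1 (hC Q hQ1)
  rw [← hu] at hMer
  have hΛ1 : Λ ≤ u + C := by
    have h1 : Λ ≤ ∑ p ∈ (Icc 1 Q).filter Nat.Prime, Real.log p / p := by
      rw [hΛ]
      apply sum_le_sum_of_subset_of_nonneg
      · intro p hp
        rw [hP, mem_filter] at hp
        exact mem_filter.2 ⟨hp.1, hp.2.1⟩
      · intro p _ _
        exact hterm p
    linarith [hMer.2]
  have hΛ2 : u - C - c₁ ≤ Λ := by
    have h1 : ∑ p ∈ (Icc 1 Q).filter Nat.Prime, Real.log p / p ≤ Λ + c₁ := by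
      rw [hΛ, hc₁]
      have h2 : (Icc 1 Q).filter Nat.Prime ⊆ P ∪ (Icc 1 p₁).filter Nat.Prime := by
        intro p hp
        rw [mem_filter, mem_Icc] at hp
        rw [mem_union, hP, mem_filter, mem_Icc, mem_filter, mem_Icc]
        rcases lt_or_ge p₁ p with h | h
        · exact Or.inl ⟨hp.1, hp.2, h⟩
        · exact Or.inr ⟨⟨hp.1.1, h⟩, hp.2⟩
      refine (sum_le_sum_of_subset_of_nonneg h2 fun p _ _ => hterm p).trans ?_
      have h3 := sum_union_inter (s₁ := P) (s₂ := (Icc 1 p₁).filter Nat.Prime)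
        (f := fun p : ℕ => Real.log p / p)
      have h4 : 0 ≤ ∑ p ∈ P ∩ (Icc 1 p₁).filter Nat.Prime, Real.log p / p :=
        sum_nonneg fun p _ => hterm p
      linarith
    linarith [hMer.1]
  have hΛ0 : 0 < Λ := by linarith
  have hlar := larger A N hNr (by
      intro m hm n hn
      rw [hA, mem_filter, mem_Ioc] at hm hn
      have h1 : (m : ℝ) - n ≤ N := by
        have : m - n ≤ N := by omega
        exact_mod_cast this
      have h2 : -(N : ℝ) ≤ (m : ℝ) - n := by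
        have : -(N : ℤ) ≤ m - n := by omega
        exact_mod_cast this
      exact abs_le.2 ⟨h2, h1⟩) P (fun p hp => (hPp p hp).1) (fun p n => ¬ AllGood T n p) κ hκ0 (by
      intro p hp
      obtain ⟨h1, h2, h3⟩ := hPp p hp
      have h4 := few_classes T hT p h1 (by rw [← hP₀]; omega) A
      have h4' : (((A.filter fun n => ¬ AllGood T n p).image fun n : ℤ => (n : ZMod p)).card : ℝ) ≤
          κ * p := by
        refine h4.trans ?_
        rw [← hκ₀, ← hG]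
        have h5 : (p₂ : ℝ) ≤ p := by exact_mod_cast (by omega : p₂ ≤ p)
        have h6 : G / (κ - κ₀) ≤ p := hp₂.trans h5
        rw [div_le_iff₀ (by linarith)] at h6
        nlinarith
      convert h4'
      ) ((1 - ε) * u - (C + c₁)) hL0 (by
      intro n hn
      rw [hA, mem_filter] at hn
      have h1 := hn.2
      unfold logCount at h1
      have h2 : ∑ p ∈ P.filter (fun p => ¬ AllGood T n p), Real.log p / p +
          ∑ p ∈ P.filter (fun p => AllGood T n p), Real.log p / p = Λ := by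
        rw [hΛ, add_comm]
        exact sum_filter_add_sum_filter_not P _ _
      have h3 : ∑ p ∈ P.filter (fun p => AllGood T n p), Real.log p / p ≤
          ∑ p ∈ (Icc 1 Q).filter (fun p => p.Prime ∧ AllGood T n p), Real.log p / p := by
        apply sum_le_sum_of_subset_of_nonneg
        · intro p hp
          rw [mem_filter, hP, mem_filter] at hp
          exact mem_filter.2 ⟨hp.1.1, hp.1.2.1, hp.2⟩
        · intro p _ _
          exact hterm p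
      have h5 : (1 - ε) * u - (C + c₁) ≤ ∑ p ∈ P.filter (fun p => ¬ AllGood T n p), Real.log p / p := by
        have h6 : ∑ p ∈ (Icc 1 Q).filter (fun p => p.Prime ∧ AllGood T n p), Real.log p / p ≤ ε * u := by
          convert h1
        linarith
      convert h5) (by rw [← hΛ]; exact hΛ0)
  rw [← hΛ] at hlar
  have hθ : ∑ p ∈ P, Real.log p ≤ Real.log 4 * Q := by
    have h1 := Chebyshev.theta_le_log4_mul_x (x := (Q : ℝ)) hQ0.le
    refine le_trans ?_ h1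
    rw [Chebyshev.theta_eq_sum_Icc, Nat.floor_natCast]
    apply sum_le_sum_of_subset_of_nonneg
    · intro p hp
      obtain ⟨h2, h3, h4⟩ := hPp p hp
      rw [mem_filter, mem_Icc]
      exact ⟨⟨by omega, h4⟩, h2⟩
    · intro p _ _
      exact Real.log_natCast_nonneg p
  have hfac : Real.log 4 ≤ ((1 - ε) * u - (C + c₁)) ^ 2 / (κ * Λ) - Real.log N := by
    have h1 : (u + Real.log 2) / τ + Real.log 4 ≤ ((1 - ε) * u - (C + c₁)) ^ 2 / (κ * Λ) := by
      rw [le_div_iff₀ (mul_pos hκ0 hΛ0)]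
      refine le_trans ?_ hmain
      have h2 : 0 ≤ (u + Real.log 2) / τ + Real.log 4 := by
        have : 0 ≤ Real.log 2 := Real.log_nonneg (by norm_num)
        have : 0 ≤ Real.log 4 := Real.log_nonneg (by norm_num)
        have : 0 ≤ u := by linarith
        positivity
      have h3 : κ * Λ ≤ κ * (u + C) := mul_le_mul_of_nonneg_left hΛ1 hκ0.le
      calc ((u + Real.log 2) / τ + Real.log 4) * (κ * Λ) ≤
            ((u + Real.log 2) / τ + Real.log 4) * (κ * (u + C)) := mul_le_mul_of_nonneg_left h3 h2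
        _ = _ := by ring
    linarith
  have hA0 : (0 : ℝ) ≤ A.card := Nat.cast_nonneg _
  have hl4 : 0 < Real.log 4 := Real.log_pos (by norm_num)
  have h9 : (A.card : ℝ) * Real.log 4 ≤ Q * Real.log 4 := by
    have h10 := mul_le_mul_of_nonneg_left hfac hA0
    linarith
  exact (le_of_mul_le_mul_right h9 hl4).trans hQle

end Pool.Agent.R486.OR
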